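import Pool.Agent.Lib_helper91.TC.Defs

namespace Pool.Agent.Lib_helper91.TC

open Finset

/-- Vandermonde with a range sum -/
theorem AP4_vand (a b c : ℕ) :
    ∑ i ∈ range (c + 1), a.choose (c - i) * b.choose i = (a + b).choose c := by
  rw [Nat.add_choose_eq, Finset.Nat.sum_antidiagonal_eq_sum_range_succ_mk,
    ← Finset.sum_range_reflect]
  apply Finset.sum_congr rfl
  intro i hi
  rw [Finset.mem_range] at hi
  have h1 : c + 1 - 1 - i = c - i := by omega
  have h2 : c - (c - i) = i := by omega
  simp only [h1, h2]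

/-- `∑ C(j,i) C(m,i) = C(j+m,j)` -/
theorem AP4_sq (j m : ℕ) :
    ∑ i ∈ range (j + 1), j.choose i * m.choose i = (j + m).choose j := by
  rw [← AP4_vand j m j]
  apply Finset.sum_congr rfl
  intro i hi
  rw [Finset.mem_range] at hi
  rw [Nat.choose_symm (by omega)]

/-- `∑ C(j,i) C(i,l) C(m,i) = C(j,l) C(j+m-l,j)` -/
theorem AP4_mid (j m l : ℕ) (hl : l ≤ j) :
    ∑ i ∈ range (j + 1), j.choose i * i.choose l * m.choose i = j.choose l * (j + m - l).choose j := by
  have h1 : j + m - l = (j - l) + m := by omega
  rw [h1, ← AP4_vand (j - l) m j, Finset.mul_sum]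
  apply Finset.sum_congr rfl
  intro i hi
  rw [Finset.mem_range] at hi
  by_cases h : l ≤ i
  · rw [Nat.choose_mul h]
    have h2 : (j - l).choose (i - l) = (j - l).choose (j - i) := by
      have h3 : j - i = (j - l) - (i - l) := by omega
      rw [h3, Nat.choose_symm (by omega)]
    rw [h2]; ring
  · have h3 : i.choose l = 0 := Nat.choose_eq_zero_of_lt (by omega)
    have h4 : (j - l).choose (j - i) = 0 := Nat.choose_eq_zero_of_lt (by omega)
    rw [h3, h4]; simp

/-- `C(k+i,i) = ∑_l C(k,l) C(i,l)` -/
theorem AP4_shift (k i J : ℕ) (hi : i ≤ J) :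
    (k + i).choose i = ∑ l ∈ range (J + 1), k.choose l * i.choose l := by
  rw [← Finset.sum_subset (Finset.range_mono (by omega : i + 1 ≤ J + 1))]
  · rw [Nat.add_comm k i, ← AP4_sq i k]
    apply Finset.sum_congr rfl
    intro l _
    ring
  · intro l _ hl
    rw [Finset.mem_range, not_lt] at hl
    rw [Nat.choose_eq_zero_of_lt (by omega : i < l)]
    simp

/-- the square of a binomial coefficient -/
theorem AP4_key (j m : ℕ) :
    ∑ i ∈ range (j + 1), j.choose i * m.choose i * (j + m + i).choose i = (j + m).choose j ^ 2 := by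
  have h1 : ∀ i ∈ range (j + 1), j.choose i * m.choose i * (j + m + i).choose i
      = ∑ l ∈ range (j + 1), (j + m).choose l * (j.choose i * i.choose l * m.choose i) := by
    intro i hi
    rw [Finset.mem_range] at hi
    rw [AP4_shift (j + m) i j (by omega), Finset.mul_sum]
    apply Finset.sum_congr rfl
    intro l _
    ring
  rw [Finset.sum_congr rfl h1, Finset.sum_comm]
  have h2 : ∀ l ∈ range (j + 1), ∑ i ∈ range (j + 1), (j + m).choose l * (j.choose i * i.choose l * m.choose i)
      = (j + m).choose j * (j.choose l * m.choose l) := by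
    intro l hl
    rw [Finset.mem_range] at hl
    rw [← Finset.mul_sum, AP4_mid j m l (by omega)]
    have h3 : (j + m).choose l * (j + m - l).choose j = (j + m).choose j * m.choose l := by
      by_cases hlm : l ≤ m
      · have e1 := Nat.choose_mul (n := j + m) (k := l + j) (s := l) (by omega)
        have e2 := Nat.choose_mul (n := j + m) (k := l + j) (s := j) (by omega)
        have e3 : l + j - l = j := by omega
        have e4 : l + j - j = l := by omega
        have e5 : j + m - j = m := by omega
        rw [e3] at e1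
        rw [e4, e5] at e2
        rw [← e1, ← e2]
        have e6 : (l + j).choose l = (l + j).choose j := by
          have := Nat.choose_symm (n := l + j) (k := j) (by omega)
          rw [e4] at this
          exact this
        rw [e6]
      · rw [Nat.choose_eq_zero_of_lt (by omega : m < l),
          Nat.choose_eq_zero_of_lt (by omega : j + m - l < j)]
        simp
    calc (j + m).choose l * (j.choose l * (j + m - l).choose j)
        = j.choose l * ((j + m).choose l * (j + m - l).choose j) := by ring
      _ = _ := by rw [h3]; ring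
  rw [Finset.sum_congr rfl h2, ← Finset.mul_sum, AP4_sq]
  ring

/-- the fourth power of a binomial coefficient -/
theorem AP4_pow4 (j k : ℕ) :
    k.choose j ^ 4 = ∑ i ∈ range (j + 1),
      (j.choose i * (j + i).choose i ^ 2) * (k.choose (j + i) * (k + i).choose (j + i)) := by
  by_cases hk : j ≤ k
  · obtain ⟨m, rfl⟩ := Nat.exists_eq_add_of_le hk
    have h1 : (j + m).choose j ^ 4 = (j + m).choose j ^ 2 * (j + m).choose j ^ 2 := by ring
    rw [h1]
    nth_rewrite 2 [← AP4_key j m]
    rw [Finset.mul_sum]
    apply Finset.sum_congr rfl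
    intro i hi
    rw [Finset.mem_range] at hi
    have e2 : (j + m + i).choose (j + i) * (j + i).choose i = (j + m + i).choose i * (j + m).choose j := by
      have := Nat.choose_mul (n := j + m + i) (k := j + i) (s := i) (by omega)
      have e3 : j + m + i - i = j + m := by omega
      have e4 : j + i - i = j := by omega
      rw [e3, e4] at this
      exact this
    have e1 : (j + m).choose (j + i) * (j + i).choose i = (j + m).choose j * m.choose i := by
      by_cases him : i ≤ m
      · have := Nat.choose_mul (n := j + m) (k := j + i) (s := j) (by omega)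
        have e3 : j + m - j = m := by omega
        have e4 : j + i - j = i := by omega
        rw [e3, e4] at this
        have e6 : (j + i).choose j = (j + i).choose i := by
          have := Nat.choose_symm (n := j + i) (k := j) (by omega)
          rw [e4] at this
          exact this.symm
        rw [← e6]
        exact this
      · rw [Nat.choose_eq_zero_of_lt (by omega : m < i),
          Nat.choose_eq_zero_of_lt (by omega : j + m < j + i)]
        simp
    calc (j + m).choose j ^ 2 * (j.choose i * m.choose i * (j + m + i).choose i)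
        = j.choose i * ((j + m).choose j * m.choose i) * ((j + m + i).choose i * (j + m).choose j) := by ring
      _ = _ := by rw [← e1, ← e2]; ring
  · rw [Nat.choose_eq_zero_of_lt (by omega : k < j)]
    symm
    rw [zero_pow (by norm_num)]
    apply Finset.sum_eq_zero
    intro i _
    rw [Nat.choose_eq_zero_of_lt (by omega : k < j + i)]
    simp

/-- `(s+1) C(n,s+1) = (n-s) C(n,s)` in the integers -/
theorem AP4_succ (n s : ℕ) :
    ((s : ℤ) + 1) * ((n.choose (s + 1) : ℕ) : ℤ) = ((n : ℤ) - s) * ((n.choose s : ℕ) : ℤ) := by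
  by_cases h : s ≤ n
  · have h1 := Nat.choose_succ_right_eq n s
    have h2 : ((n.choose (s + 1) * (s + 1) : ℕ) : ℤ) = ((n.choose s * (n - s) : ℕ) : ℤ) := by rw [h1]
    push_cast [Nat.cast_sub h] at h2
    linarith
  · rw [Nat.choose_eq_zero_of_lt (by omega : n < s), Nat.choose_eq_zero_of_lt (by omega : n < s + 1)]
    simp

theorem AP4_tel (j i n : ℕ) :
    ∑ k ∈ range n, (2 * (k : ℤ) + 1 - j) * (((k.choose (j + i) : ℕ) : ℤ) * (((k + i).choose (j + i) : ℕ) : ℤ))
      = (((j + i : ℕ) : ℤ) + 1) * ((n.choose (j + i + 1) : ℕ) : ℤ) * (((n + i).choose (j + i + 1) : ℕ) : ℤ) := by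
  induction n with
  | zero => simp
  | succ n ih =>
    rw [Finset.sum_range_succ, ih]
    have e1 : n + 1 + i = n + i + 1 := by omega
    rw [e1, Nat.choose_succ_succ n (j + i), Nat.choose_succ_succ (n + i) (j + i)]
    have h1 := AP4_succ n (j + i)
    have h2 := AP4_succ (n + i) (j + i)
    push_cast at h1 h2 ⊢
    generalize ((n.choose (j + i) : ℕ) : ℤ) = A at *
    generalize ((n.choose (j + i + 1) : ℕ) : ℤ) = B at *
    generalize (((n + i).choose (j + i) : ℕ) : ℤ) = C at *
    generalize (((n + i).choose (j + i + 1) : ℕ) : ℤ) = D at *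
    linear_combination (-C) * h1 - A * h2

theorem AP4 (j n : ℕ) :
    (n : ℤ) ∣ ∑ k ∈ range n, (2 * (k : ℤ) + 1 - j) * ((k.choose j : ℕ) : ℤ) ^ 4 := by
  have h1 : ∀ k ∈ range n, (2 * (k : ℤ) + 1 - j) * ((k.choose j : ℕ) : ℤ) ^ 4
      = ∑ i ∈ range (j + 1), ((j.choose i * (j + i).choose i ^ 2 : ℕ) : ℤ)
        * ((2 * (k : ℤ) + 1 - j) * (((k.choose (j + i) : ℕ) : ℤ) * (((k + i).choose (j + i) : ℕ) : ℤ))) := by
    intro k _
    have := AP4_pow4 j k
    have h2 : ((k.choose j : ℕ) : ℤ) ^ 4 = ((k.choose j ^ 4 : ℕ) : ℤ) := by push_cast; ring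
    rw [h2, this]
    push_cast
    rw [Finset.mul_sum]
    apply Finset.sum_congr rfl
    intro i _
    ring
  rw [Finset.sum_congr rfl h1, Finset.sum_comm]
  apply Finset.dvd_sum
  intro i _
  rw [← Finset.mul_sum, AP4_tel]
  apply Dvd.dvd.mul_left
  apply Dvd.dvd.mul_right
  rcases Nat.eq_zero_or_pos n with h0 | h0
  · subst h0; simp
  · obtain ⟨m, rfl⟩ := Nat.exists_eq_add_of_le h0
    refine ⟨((m.choose (j + i) : ℕ) : ℤ), ?_⟩
    have h3 := Nat.add_one_mul_choose_eq m (j + i)
    have h4 : (((m + 1) * m.choose (j + i) : ℕ) : ℤ) = (((m + 1).choose (j + i + 1) * (j + i + 1) : ℕ) : ℤ) := by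
      rw [h3]
    have e1 : 0 + 1 + m = m + 1 := by omega
    rw [show (Nat.succ 0 + m) = m + 1 by omega]
    push_cast at h4 ⊢
    linarith

end Pool.Agent.Lib_helper91.TC
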