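import Pool.Agent.Lib_helper91.TC.HA

/-! Block CTS : constant terms of powers of `Lam`. -/

namespace Pool.Agent.Lib_helper91.TC

open Finset

section

variable {R : Type} [CommRing R]

theorem cts_pow (u v w : ℤ) (k : ℕ) :
    (1 + mon R u v w) ^ k
      = ∑ a ∈ range (k + 1), HahnSeries.C ((k.choose a : ℕ) : R) * mon R (a * u) (a * v) (a * w) := by
  rw [add_comm, add_pow]
  refine Finset.sum_congr rfl (fun a _ => ?_)
  rw [one_pow, mul_one, mon_pow, map_natCast, mul_comm]

theorem cts_EE (k : ℕ) :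
    EE R ^ k = ∑ a ∈ range (k + 1), ∑ b ∈ range (k + 1), ∑ c ∈ range (k + 1),
      HahnSeries.C (((k.choose a : ℕ) : R) * ((k.choose b : ℕ) : R) * ((k.choose c : ℕ) : R)) * mon R a b c := by
  rw [EE, mul_pow, mul_pow, cts_pow, cts_pow, cts_pow, Finset.sum_mul_sum, Finset.sum_mul]
  refine Finset.sum_congr rfl (fun a _ => ?_)
  rw [Finset.sum_mul]
  refine Finset.sum_congr rfl (fun b _ => ?_)
  rw [Finset.mul_sum]
  refine Finset.sum_congr rfl (fun c _ => ?_)
  have h : mon R (a : ℤ) (b : ℤ) (c : ℤ)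
      = mon R (a * 1) (a * 0) (a * 0) * mon R (b * 0) (b * 1) (b * 0) * mon R (c * 0) (c * 0) (c * 1) := by
    rw [mon_mul, mon_mul]
    congr 1 <;> ring
  rw [h, map_mul, map_mul]
  ring

theorem cts_CT (k d : ℕ) (r : R) :
    CT (EE R ^ k * (HahnSeries.C r * mon R (-d) (-d) (-d))) = r * ((k.choose d : ℕ) : R) ^ 3 := by
  rw [cts_EE, Finset.sum_mul, CT_sum]
  have h1 : ∀ a ∈ range (k + 1), CT ((∑ b ∈ range (k + 1), ∑ c ∈ range (k + 1),
      HahnSeries.C (((k.choose a : ℕ) : R) * ((k.choose b : ℕ) : R) * ((k.choose c : ℕ) : R)) * mon R a b c)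
        * (HahnSeries.C r * mon R (-d) (-d) (-d)))
      = if a = d then r * ((k.choose d : ℕ) : R) ^ 3 else 0 := by
    intro a ha
    rw [Finset.sum_mul, CT_sum]
    have h2 : ∀ b ∈ range (k + 1), CT ((∑ c ∈ range (k + 1),
        HahnSeries.C (((k.choose a : ℕ) : R) * ((k.choose b : ℕ) : R) * ((k.choose c : ℕ) : R)) * mon R a b c)
          * (HahnSeries.C r * mon R (-d) (-d) (-d)))
        = if b = d then (if a = d then r * ((k.choose d : ℕ) : R) ^ 3 else 0) else 0 := by
      intro b hb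
      rw [Finset.sum_mul, CT_sum]
      have h3 : ∀ c ∈ range (k + 1), CT (
          HahnSeries.C (((k.choose a : ℕ) : R) * ((k.choose b : ℕ) : R) * ((k.choose c : ℕ) : R)) * mon R a b c
            * (HahnSeries.C r * mon R (-d) (-d) (-d)))
          = if c = d then (if b = d then (if a = d then r * ((k.choose d : ℕ) : R) ^ 3 else 0) else 0) else 0 := by
        intro c hc
        have h4 : HahnSeries.C (((k.choose a : ℕ) : R) * ((k.choose b : ℕ) : R) * ((k.choose c : ℕ) : R))
            * mon R a b c * (HahnSeries.C r * mon R (-d) (-d) (-d))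
            = HahnSeries.C (((k.choose a : ℕ) : R) * ((k.choose b : ℕ) : R) * ((k.choose c : ℕ) : R) * r)
              * mon R ((a : ℤ) + -d) ((b : ℤ) + -d) ((c : ℤ) + -d) := by
          rw [← mon_mul, map_mul HahnSeries.C _ r]
          ring
        rw [h4, CT_C_mul, CT_mon]
        by_cases hcd : c = d
        · by_cases hbd : b = d
          · by_cases had : a = d
            · subst hcd hbd had
              rw [if_pos (by simp), if_pos rfl]
              simp only [if_true]
              ring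
            · rw [if_neg (by omega), if_pos hcd, if_pos hbd, if_neg had, mul_zero]
          · rw [if_neg (by omega), if_pos hcd, if_neg hbd, mul_zero]
        · rw [if_neg (by omega), if_neg hcd, mul_zero]
      rw [Finset.sum_congr rfl h3, Finset.sum_ite_eq']
      by_cases hbd : b = d
      · rw [if_pos (by rw [← hbd]; exact hb)]
      · simp only [if_neg hbd, ite_self]
    rw [Finset.sum_congr rfl h2, Finset.sum_ite_eq']
    by_cases had : a = d
    · rw [if_pos (by rw [← had]; exact ha)]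
    · simp only [if_neg had, ite_self]
  rw [Finset.sum_congr rfl h1, Finset.sum_ite_eq']
  by_cases hd : d ∈ range (k + 1)
  · rw [if_pos hd]
  · rw [if_neg hd]
    rw [Finset.mem_range, not_lt] at hd
    rw [Nat.choose_eq_zero_of_lt (by omega)]
    simp

theorem cts_powM (x : R) (k : ℕ) :
    (1 + HahnSeries.C x * mon R (-1) (-1) (-1)) ^ k
      = ∑ a ∈ range (k + 1), HahnSeries.C (((k.choose a : ℕ) : R) * x ^ a) * mon R (-a) (-a) (-a) := by
  rw [add_comm, add_pow]
  refine Finset.sum_congr rfl (fun a _ => ?_)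
  rw [one_pow, mul_one, mul_pow, mon_pow, map_mul, map_natCast, map_pow]
  have h : mon R ((a : ℤ) * -1) ((a : ℤ) * -1) ((a : ℤ) * -1) = mon R (-a) (-a) (-a) := by
    congr 1 <;> ring
  rw [h]
  ring

theorem CTS1 (x : R) (k : ℕ) :
    CT (Lam x ^ k) = ∑ j ∈ range (k + 1), ((k.choose j : ℕ) : R) ^ 4 * x ^ j := by
  rw [Lam, mul_pow, cts_powM, Finset.mul_sum, CT_sum]
  refine Finset.sum_congr rfl (fun j _ => ?_)
  rw [cts_CT]
  ring

theorem CTS2 (x : R) (k : ℕ) :
    (k : R) * CT (Lam x ^ (k - 1) * thLam x)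
      = ∑ j ∈ range (k + 1), (j : R) * ((k.choose j : ℕ) : R) ^ 4 * x ^ j := by
  rcases k with _ | k
  · simp
  · rw [Nat.add_sub_cancel, Lam, thLam, mul_pow, cts_powM]
    have h : EE R ^ k * (∑ a ∈ range (k + 1), HahnSeries.C (((k.choose a : ℕ) : R) * x ^ a) * mon R (-a) (-a) (-a))
          * (EE R * (HahnSeries.C x * mon R (-1) (-1) (-1)))
        = ∑ a ∈ range (k + 1), EE R ^ (k + 1) * (HahnSeries.C (((k.choose a : ℕ) : R) * x ^ (a + 1))
            * mon R (-(a + 1 : ℕ)) (-(a + 1 : ℕ)) (-(a + 1 : ℕ))) := by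
      rw [Finset.mul_sum, Finset.sum_mul]
      refine Finset.sum_congr rfl (fun a _ => ?_)
      have h1 : mon R (-(a + 1 : ℕ) : ℤ) (-(a + 1 : ℕ) : ℤ) (-(a + 1 : ℕ) : ℤ)
          = mon R (-a) (-a) (-a) * mon R (-1) (-1) (-1) := by
        rw [mon_mul]
        congr 1 <;> push_cast <;> ring
      rw [h1, pow_succ (EE R), pow_succ x a, ← mul_assoc ((k.choose a : ℕ) : R), map_mul HahnSeries.C _ x]
      ring
    rw [h, CT_sum, Finset.sum_range_succ' _ (k + 1), Nat.cast_zero, zero_mul, zero_mul, add_zero, Finset.mul_sum]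
    refine Finset.sum_congr rfl (fun a _ => ?_)
    rw [cts_CT]
    have h2 : ((k + 1 : ℕ) : R) * ((k.choose a : ℕ) : R) = (((k + 1).choose (a + 1) : ℕ) : R) * ((a + 1 : ℕ) : R) := by
      rw [← Nat.cast_mul, ← Nat.cast_mul, Nat.add_one_mul_choose_eq]
    calc ((k + 1 : ℕ) : R) * (((k.choose a : ℕ) : R) * x ^ (a + 1) * (((k + 1).choose (a + 1) : ℕ) : R) ^ 3)
        = (((k + 1 : ℕ) : R) * ((k.choose a : ℕ) : R)) * x ^ (a + 1) * (((k + 1).choose (a + 1) : ℕ) : R) ^ 3 := by
          ring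
      _ = _ := by
          rw [h2]
          ring

end

end Pool.Agent.Lib_helper91.TC
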