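import Pool.Agent.Lib_helper91.TC.Defs

/-! Block HA : derivations and the constant term on the Hahn series ring. -/

namespace Pool.Agent.Lib_helper91.TC

open Finset

section

variable {R : Type} [CommRing R]

theorem ha_dl_coeff (l : Gam →+ ℤ) (f : HS R) (g : Gam) : (dl l f).coeff g = (l g : R) * f.coeff g := rfl

theorem ha_dl_support (l : Gam →+ ℤ) (f : HS R) : (dl l f).support ⊆ f.support := by
  intro g hg
  rw [HahnSeries.mem_support] at hg ⊢
  intro h
  exact hg (by rw [ha_dl_coeff, h, mul_zero])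

theorem dl_add (l : Gam →+ ℤ) (f g : HS R) : dl l (f + g) = dl l f + dl l g := by
  ext a
  simp only [HahnSeries.coeff_add, ha_dl_coeff, mul_add]

theorem dl_neg (l : Gam →+ ℤ) (f : HS R) : dl l (-f) = -dl l f := by
  ext a
  simp only [HahnSeries.coeff_neg, ha_dl_coeff, mul_neg]

theorem dl_sub (l : Gam →+ ℤ) (f g : HS R) : dl l (f - g) = dl l f - dl l g := by
  rw [sub_eq_add_neg, dl_add, dl_neg, ← sub_eq_add_neg]

theorem dl_mul (l : Gam →+ ℤ) (f g : HS R) : dl l (f * g) = dl l f * g + f * dl l g := by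
  ext a
  rw [HahnSeries.coeff_add, HahnSeries.coeff_mul_left' f.isPWO_support (ha_dl_support l f),
    HahnSeries.coeff_mul_right' g.isPWO_support (ha_dl_support l g), ha_dl_coeff, HahnSeries.coeff_mul, Finset.mul_sum,
    ← Finset.sum_add_distrib]
  refine Finset.sum_congr rfl (fun ij hij => ?_)
  have h1 : ij.1 + ij.2 = a := (Finset.mem_antidiagonal.mp hij).2.2
  rw [ha_dl_coeff, ha_dl_coeff, ← h1, map_add]
  push_cast
  ring

theorem dl_C (l : Gam →+ ℤ) (r : R) : dl l (HahnSeries.C r : HS R) = 0 := by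
  ext a
  rw [ha_dl_coeff, HahnSeries.C_apply, HahnSeries.coeff_zero]
  by_cases h : a = 0
  · rw [h, map_zero, Int.cast_zero, zero_mul]
  · rw [HahnSeries.coeff_single_of_ne h, mul_zero]

theorem dl_one (l : Gam →+ ℤ) : dl l (1 : HS R) = 0 := by
  rw [← HahnSeries.C_one, dl_C]

theorem dl_pow (l : Gam →+ ℤ) (f : HS R) (n : ℕ) : dl l (f ^ n) = (n : HS R) * f ^ (n - 1) * dl l f := by
  induction n with
  | zero => rw [pow_zero, dl_one, Nat.cast_zero, zero_mul, zero_mul]
  | succ n ih =>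
    rw [pow_succ, dl_mul, ih]
    rcases n with _ | n
    · simp
    · simp only [Nat.add_sub_cancel]
      push_cast
      ring

theorem ha_dl_zero (l : Gam →+ ℤ) : dl l (0 : HS R) = 0 := by
  ext a
  rw [ha_dl_coeff, HahnSeries.coeff_zero, mul_zero]

theorem dl_sum {ι : Type} (l : Gam →+ ℤ) (s : Finset ι) (f : ι → HS R) :
    dl l (∑ i ∈ s, f i) = ∑ i ∈ s, dl l (f i) := by
  classical
  induction s using Finset.induction_on with
  | empty => rw [Finset.sum_empty, Finset.sum_empty, ha_dl_zero]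
  | insert a s ha ih => rw [Finset.sum_insert ha, Finset.sum_insert ha, dl_add, ih]

theorem dl_mon (l : Gam →+ ℤ) (u v w : ℤ) :
    dl l (mon R u v w) = HahnSeries.C ((l (ex u v w) : ℤ) : R) * mon R u v w := by
  ext a
  rw [HahnSeries.C_apply, HahnSeries.coeff_single_zero_mul, ha_dl_coeff, mon]
  by_cases h : a = ex u v w
  · rw [h]
  · rw [HahnSeries.coeff_single_of_ne h, mul_zero, mul_zero]

theorem lU_ex (u v w : ℤ) : lU (ex u v w) = u := by
  show -(ofLex (ex u v w)).1 = u
  simp [ex]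

theorem lV_ex (u v w : ℤ) : lV (ex u v w) = v := by
  show -(ofLex (ofLex (ex u v w)).2).1 = v
  simp [ex]

theorem lW_ex (u v w : ℤ) : lW (ex u v w) = w := by
  show (ofLex (ofLex (ex u v w)).2).2 = w
  simp [ex]

theorem ha_ex_add (u v w u' v' w' : ℤ) : ex u v w + ex u' v' w' = ex (u + u') (v + v') (w + w') := by
  unfold ex
  rw [← toLex_add, Prod.mk_add_mk, ← toLex_add, Prod.mk_add_mk]
  congr 2
  · ring
  · congr 2
    ring

theorem ha_ex_zero : ex 0 0 0 = 0 := by
  unfold ex
  simp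

theorem mon_mul (u v w u' v' w' : ℤ) : mon R u v w * mon R u' v' w' = mon R (u + u') (v + v') (w + w') := by
  rw [mon, mon, mon, HahnSeries.single_mul_single, ha_ex_add, mul_one]

theorem mon_zero : mon R 0 0 0 = 1 := by
  rw [mon, ha_ex_zero]
  rfl

theorem mon_pow (u v w : ℤ) (n : ℕ) : mon R u v w ^ n = mon R (n * u) (n * v) (n * w) := by
  induction n with
  | zero => rw [pow_zero, Nat.cast_zero, zero_mul, zero_mul, zero_mul, mon_zero]
  | succ n ih =>
    rw [pow_succ, ih, mon_mul]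
    congr 1 <;> push_cast <;> ring

theorem CT_dl (l : Gam →+ ℤ) (f : HS R) : CT (dl l f) = 0 := by
  rw [CT, ha_dl_coeff, map_zero, Int.cast_zero, zero_mul]

theorem CT_add (f g : HS R) : CT (f + g) = CT f + CT g := by
  rw [CT, HahnSeries.coeff_add, CT, CT]

theorem CT_sub (f g : HS R) : CT (f - g) = CT f - CT g := by
  rw [CT, HahnSeries.coeff_sub, CT, CT]

theorem ha_CT_zero : CT (0 : HS R) = 0 := by
  rw [CT, HahnSeries.coeff_zero]

theorem CT_sum {ι : Type} (s : Finset ι) (f : ι → HS R) : CT (∑ i ∈ s, f i) = ∑ i ∈ s, CT (f i) := by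
  classical
  induction s using Finset.induction_on with
  | empty => rw [Finset.sum_empty, Finset.sum_empty, ha_CT_zero]
  | insert a s ha ih => rw [Finset.sum_insert ha, Finset.sum_insert ha, CT_add, ih]

theorem CT_C_mul (r : R) (f : HS R) : CT (HahnSeries.C r * f) = r * CT f := by
  rw [CT, CT, HahnSeries.C_apply, HahnSeries.coeff_single_zero_mul]

theorem ha_ex_inj {u v w : ℤ} (h : ex u v w = 0) : u = 0 ∧ v = 0 ∧ w = 0 := by
  refine ⟨?_, ?_, ?_⟩
  · rw [← lU_ex u v w, h, map_zero]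
  · rw [← lV_ex u v w, h, map_zero]
  · rw [← lW_ex u v w, h, map_zero]

theorem CT_mon (u v w : ℤ) : CT (mon R u v w) = if u = 0 ∧ v = 0 ∧ w = 0 then 1 else 0 := by
  by_cases h : u = 0 ∧ v = 0 ∧ w = 0
  · rw [if_pos h, h.1, h.2.1, h.2.2, mon_zero, CT, HahnSeries.coeff_one, if_pos rfl]
  · rw [if_neg h, CT, mon]
    refine HahnSeries.coeff_single_of_ne (fun h' => h (ha_ex_inj h'.symm))

/-- a series with leading coefficient `1` is a unit -/
theorem isUnit_top [IsDomain R] (f : HS R) (a : Gam) (h1 : f.coeff a = 1) (h0 : ∀ g < a, f.coeff g = 0) :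
    IsUnit f := by
  have hf : f ≠ 0 := by
    intro h
    rw [h, HahnSeries.coeff_zero] at h1
    exact zero_ne_one h1
  have ho : f.order = a := by
    refine le_antisymm ?_ ?_
    · refine HahnSeries.order_le_of_coeff_ne_zero ?_
      rw [h1]
      exact one_ne_zero
    · by_contra hlt
      push Not at hlt
      exact (HahnSeries.coeff_order_eq_zero.not.mpr hf) (h0 _ hlt)
  rw [HahnSeries.isUnit_iff, HahnSeries.leadingCoeff_eq, ho, h1]
  exact isUnit_one

end

end Pool.Agent.Lib_helper91.TC
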