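import Pool.Agent.Lib_helper91.TC.Defs
import Pool.Agent.Lib_helper91.TC.HA
import Pool.Agent.Lib_helper91.TC.CTS

/-! Block CAB of part (c) of MP_f97b3c_nt : the consequence of a certificate. -/

namespace Pool.Agent.Lib_helper91.TC

open Finset

section

variable {R : Type} [CommRing R]

/-- the derivative of a geometric sum -/
theorem cab_geom {T : Type} [CommRing T] (a : T) (n : ℕ) :
    (a - 1) * ∑ k ∈ range n, (k : T) * a ^ (k - 1) + ∑ k ∈ range n, a ^ k
      = (n : T) * a ^ (n - 1) := by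
  induction n with
  | zero => simp
  | succ n ih =>
    rw [sum_range_succ, sum_range_succ, mul_add]
    have h : (a - 1) * ∑ k ∈ range n, (k : T) * a ^ (k - 1) =
        (n : T) * a ^ (n - 1) - ∑ k ∈ range n, a ^ k := by rw [← ih]; ring
    rw [h]
    rcases n with _ | n
    · simp
    · simp only [Nat.add_sub_cancel]
      push_cast
      ring

theorem cab_CT_nat (k : ℕ) (f : HS R) : CT ((k : HS R) * f) = (k : R) * CT f := by
  rw [← CT_C_mul, map_natCast]

theorem CAB [IsDomain R] (x α β : R) (P1 P2 P3 : HS R)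
    (h : (Lam x - 1) * (DU P1 + DV P2 + DW P3) - (P1 * DU (Lam x) + P2 * DV (Lam x) + P3 * DW (Lam x))
      = HahnSeries.C β * (Lam x - 1) - HahnSeries.C α * thLam x) (n : ℕ) (hn : 0 < n) :
    ∑ k ∈ range n, ∑ j ∈ range (k + 1), (α * (j : R) + β) * ((k.choose j : ℕ) : R) ^ 4 * x ^ j
      = (n : R) * CT (Lam x ^ (n - 1) * (HahnSeries.C β - (DU P1 + DV P2 + DW P3))) := by
  set G : HS R := ∑ k ∈ range n, Lam x ^ k with hG
  set G' : HS R := ∑ k ∈ range n, (k : HS R) * Lam x ^ (k - 1) with hG'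
  have e1 : (Lam x - 1) * G' + G = (n : HS R) * Lam x ^ (n - 1) := cab_geom (Lam x) n
  have hD : ∀ l : Gam →+ ℤ, dl l G = G' * dl l (Lam x) := by
    intro l
    rw [hG, dl_sum, hG', sum_mul]
    exact sum_congr rfl fun k _ => dl_pow l _ k
  have e2 : DU (P1 * G) + DV (P2 * G) + DW (P3 * G) = G * (DU P1 + DV P2 + DW P3) +
      G' * (P1 * DU (Lam x) + P2 * DV (Lam x) + P3 * DW (Lam x)) := by
    unfold DU DV DW
    rw [dl_mul, dl_mul, dl_mul, hD, hD, hD]
    ring
  have e3 : CT (DU (P1 * G) + DV (P2 * G) + DW (P3 * G)) = 0 := by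
    unfold DU DV DW
    rw [CT_add, CT_add, CT_dl, CT_dl, CT_dl, add_zero, add_zero]
  have key : HahnSeries.C β * G + HahnSeries.C α * (G' * thLam x) =
      (n : HS R) * (Lam x ^ (n - 1) * (HahnSeries.C β - (DU P1 + DV P2 + DW P3))) +
        (DU (P1 * G) + DV (P2 * G) + DW (P3 * G)) := by
    rw [e2]
    linear_combination (HahnSeries.C β - (DU P1 + DV P2 + DW P3)) * e1 + G' * h
  have key2 := congrArg CT key
  rw [CT_add, CT_add, e3, add_zero, CT_C_mul, CT_C_mul, cab_CT_nat] at key2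
  rw [← key2, hG, CT_sum, hG', sum_mul, CT_sum, mul_sum, mul_sum, ← sum_add_distrib]
  refine sum_congr rfl fun k _ => ?_
  have e4 : CT ((k : HS R) * Lam x ^ (k - 1) * thLam x) =
      ∑ j ∈ range (k + 1), (j : R) * ((k.choose j : ℕ) : R) ^ 4 * x ^ j := by
    rw [mul_assoc, cab_CT_nat, CTS2]
  rw [e4, CTS1, mul_sum, mul_sum, ← sum_add_distrib]
  refine sum_congr rfl fun j _ => ?_
  ring

end

end Pool.Agent.Lib_helper91.TC
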