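import Pool.Agent.Lib_helper91.TC.HA

/-! Block CER12 (helper40): the certificate for `x = 12`. -/

namespace Pool.Agent.Lib_helper91.TC

open Finset

section

variable {R : Type} [CommRing R]

theorem cer12_div (l : Gam →+ ℤ) (hl : l (ex (-1) (-1) (-1)) = -1) (Q q n : HS R) (hQ : Q * q = 1) :
    dl l (n * mon R (-1) (-1) (-1) * q)
      = mon R (-1) (-1) (-1) * ((dl l n - n) * q - n * q ^ 2 * dl l Q) := by
  have h1 : dl l Q * q + Q * dl l q = 0 := by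
    rw [← dl_mul, hQ, dl_one]
  have h2 : dl l q = - (q ^ 2 * dl l Q) := by
    linear_combination (-(dl l q)) * hQ + q * h1
  rw [dl_mul, dl_mul, dl_mon, hl, h2]
  simp only [Int.cast_neg, Int.cast_one, map_neg, map_one]
  ring

theorem cer12_lam (x : R) : Lam x = EE R * (mon R 1 1 1 + HahnSeries.C x) * mon R (-1) (-1) (-1) := by
  have hT : mon R 1 1 1 * mon R (-1) (-1) (-1) = 1 := by
    rw [mon_mul, ← mon_zero]; norm_num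
  unfold Lam
  linear_combination (-(EE R)) * hT

/-- the reduction of a certificate to a polynomial identity; `L = (1+U)(1+V)(1+W)(UVW+x)` -/
theorem cer_reduce (x α β : R) (Q q n1 n2 n3 L : HS R) (hQ : Q * q = 1)
    (hL : L = EE R * (mon R 1 1 1 + HahnSeries.C x))
    (hid : (L - mon R 1 1 1) * (Q * ((DU n1 - n1) + (DV n2 - n2) + (DW n3 - n3))
        - (n1 * DU Q + n2 * DV Q + n3 * DW Q))
      - Q * (n1 * (DU L - L) + n2 * (DV L - L) + n3 * (DW L - L))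
      = Q ^ 2 * mon R 1 1 1 * (HahnSeries.C β * (L - mon R 1 1 1) - HahnSeries.C α * (EE R * HahnSeries.C x))) :
    ∃ P1 P2 P3 : HS R,
      (Lam x - 1) * (DU P1 + DV P2 + DW P3)
        - (P1 * DU (Lam x) + P2 * DV (Lam x) + P3 * DW (Lam x))
        = HahnSeries.C β * (Lam x - 1) - HahnSeries.C α * thLam x := by
  have hT : mon R 1 1 1 * mon R (-1) (-1) (-1) = 1 := by
    rw [mon_mul, ← mon_zero]; norm_num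
  have hlam : Lam x = L * mon R (-1) (-1) (-1) := by rw [hL]; exact cer12_lam x
  have hdl : ∀ l : Gam →+ ℤ, l (ex (-1) (-1) (-1)) = -1 →
      dl l (L * mon R (-1) (-1) (-1)) = (dl l L - L) * mon R (-1) (-1) (-1) := by
    intro l hl
    rw [dl_mul, dl_mon, hl]
    simp only [Int.cast_neg, Int.cast_one, map_neg, map_one]
    ring
  refine ⟨n1 * mon R (-1) (-1) (-1) * q, n2 * mon R (-1) (-1) (-1) * q, n3 * mon R (-1) (-1) (-1) * q, ?_⟩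
  unfold DU DV DW at hid ⊢
  rw [cer12_div lU (lU_ex _ _ _) Q q n1 hQ, cer12_div lV (lV_ex _ _ _) Q q n2 hQ, cer12_div lW (lW_ex _ _ _) Q q n3 hQ,
    hlam, hdl lU (lU_ex _ _ _), hdl lV (lV_ex _ _ _), hdl lW (lW_ex _ _ _)]
  unfold thLam
  generalize mon R (-1) (-1) (-1) = t at *
  generalize mon R 1 1 1 = T at *
  generalize dl lU n1 = a1 at *
  generalize dl lV n2 = a2 at *
  generalize dl lW n3 = a3 at *
  generalize dl lU Q = b1 at *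
  generalize dl lV Q = b2 at *
  generalize dl lW Q = b3 at *
  generalize dl lU L = c1 at *
  generalize dl lV L = c2 at *
  generalize dl lW L = c3 at *
  generalize (HahnSeries.C α : HS R) = A at *
  generalize (HahnSeries.C β : HS R) = B at *
  generalize (HahnSeries.C x : HS R) = X at *
  generalize EE R = E at *
  linear_combination (t ^ 2 * q ^ 2) * hid
    - (t ^ 2 * q * ((L - T) * ((a1 - n1) + (a2 - n2) + (a3 - n3))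
        - (n1 * (c1 - L) + n2 * (c2 - L) + n3 * (c3 - L)))) * hQ
    + (t * (B * (L - T) - A * (E * X)) * (q * Q) ^ 2) * hT
    + (t * (B * (L - T) - A * (E * X)) * (q * Q + 1)) * hQ
    - B * hT
    + (t * (((a1 - n1) + (a2 - n2) + (a3 - n3)) * q - (n1 * b1 + n2 * b2 + n3 * b3) * q ^ 2)) * hT

end

theorem cer12_coeff (u v w : ℤ) (a b c : ℤ) : (mon ℤ u v w).coeff (ex a b c) = if a = u ∧ b = v ∧ c = w then 1 else 0 := by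
  unfold mon
  rw [HahnSeries.coeff_single]
  have : ex a b c = ex u v w ↔ a = u ∧ b = v ∧ c = w := by
    unfold ex
    constructor
    · intro h
      have h1 := congrArg (fun g => (ofLex g).1) h
      have h2 := congrArg (fun g => (ofLex (ofLex g).2).1) h
      have h3 := congrArg (fun g => (ofLex (ofLex g).2).2) h
      simp at h1 h2 h3
      exact ⟨h1, h2, h3⟩
    · rintro ⟨rfl, rfl, rfl⟩
      rfl
  simp only [this]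

theorem cer12_isUnit : IsUnit (mon ℤ 1 1 0 + 3 * mon ℤ 1 0 0 + 3 * mon ℤ 0 1 0 + 6 * mon ℤ 0 0 0 : HS ℤ) := by
  have hex : ∀ g : Gam, ∃ a b c : ℤ, g = ex a b c := by
    intro g
    refine ⟨-(ofLex g).1, -(ofLex (ofLex g).2).1, (ofLex (ofLex g).2).2, ?_⟩
    unfold ex
    simp
  have h3 : (3 : HS ℤ) = HahnSeries.C 3 := by simp
  have h6 : (6 : HS ℤ) = HahnSeries.C 6 := by simp
  have hc : ∀ a b c : ℤ, (mon ℤ 1 1 0 + 3 * mon ℤ 1 0 0 + 3 * mon ℤ 0 1 0 + 6 * mon ℤ 0 0 0 : HS ℤ).coeff (ex a b c)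
      = (if a = 1 ∧ b = 1 ∧ c = 0 then 1 else 0) + 3 * (if a = 1 ∧ b = 0 ∧ c = 0 then 1 else 0)
        + 3 * (if a = 0 ∧ b = 1 ∧ c = 0 then 1 else 0) + 6 * (if a = 0 ∧ b = 0 ∧ c = 0 then 1 else 0) := by
    intro a b c
    rw [h3, h6]
    simp only [HahnSeries.coeff_add, HahnSeries.C_mul_eq_smul, HahnSeries.coeff_smul, cer12_coeff, smul_eq_mul]
  refine isUnit_top _ (ex 1 1 0) ?_ ?_
  · rw [hc]; norm_num
  · intro g hg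
    obtain ⟨a, b, c, rfl⟩ := hex g
    rw [hc]
    have hlt : 1 < a ∨ (a = 1 ∧ (1 < b ∨ (b = 1 ∧ c < 0))) := by
      unfold ex at hg
      rw [Prod.Lex.toLex_lt_toLex] at hg
      simp only [Prod.Lex.toLex_lt_toLex] at hg
      omega
    split_ifs <;> omega

theorem cer12_nat (l : Gam →+ ℤ) (n : ℕ) [n.AtLeastTwo] : dl l (no_index (OfNat.ofNat n : HS ℤ)) = 0 := by
  have : (OfNat.ofNat n : HS ℤ) = HahnSeries.C (OfNat.ofNat n : ℤ) := by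
    rw [map_ofNat]
  rw [this, dl_C]

/-- the rules of a derivation which are used below -/
structure C12D {A : Type} [CommRing A] (d : A → A) : Prop where
  add : ∀ f g, d (f + g) = d f + d g
  sub : ∀ f g, d (f - g) = d f - d g
  neg : ∀ f, d (-f) = -d f
  mul : ∀ f g, d (f * g) = d f * g + f * d g
  pow : ∀ f (n : ℕ), d (f ^ n) = (n : A) * f ^ (n - 1) * d f
  num : ∀ (n : ℕ) [n.AtLeastTwo], d (no_index (OfNat.ofNat n : A)) = 0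
  one : d 1 = 0

set_option maxRecDepth 100000 in
theorem cer12_poly {A : Type} [CommRing A] (U V W : A) (dU dV dW : A → A) (DU : C12D dU) (DV : C12D dV) (DW : C12D dW)
    (hU1 : dU U = U) (hU2 : dV U = 0) (hU3 : dW U = 0)
    (hV1 : dU V = 0) (hV2 : dV V = V) (hV3 : dW V = 0)
    (hW1 : dU W = 0) (hW2 : dV W = 0) (hW3 : dW W = W) :
    ∃ n1 n2 n3 : A,
    ((1 + U) * (1 + V) * (1 + W) * (U * V * W + 12) - U * V * W)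
      * ((U * V + 3 * U + 3 * V + 6) * ((dU n1 - n1) + (dV n2 - n2) + (dW n3 - n3))
        - (n1 * dU (U * V + 3 * U + 3 * V + 6) + n2 * dV (U * V + 3 * U + 3 * V + 6) + n3 * dW (U * V + 3 * U + 3 * V + 6)))
      - (U * V + 3 * U + 3 * V + 6) * (n1 * (dU ((1 + U) * (1 + V) * (1 + W) * (U * V * W + 12)) - (1 + U) * (1 + V) * (1 + W) * (U * V * W + 12))
        + n2 * (dV ((1 + U) * (1 + V) * (1 + W) * (U * V * W + 12)) - (1 + U) * (1 + V) * (1 + W) * (U * V * W + 12))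
        + n3 * (dW ((1 + U) * (1 + V) * (1 + W) * (U * V * W + 12)) - (1 + U) * (1 + V) * (1 + W) * (U * V * W + 12)))
      = (U * V + 3 * U + 3 * V + 6) ^ 2 * (U * V * W)
        * (1 * ((1 + U) * (1 + V) * (1 + W) * (U * V * W + 12) - U * V * W) - 2 * ((1 + U) * (1 + V) * (1 + W) * 12)) := by
  obtain ⟨n1, hn1⟩ : ∃ n : A, n = 6 + 12*W + 15*V - 6*V*W + 9*V*V - 21*V*V*W + 9*U + 18*U*W + 21*U*V - 12*U*V*W + 12*U*V*V - 29*U*V*V*W - 3*U*V*V*W*W -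
      3*U*V*V*V*W*W + 3*U*U + 6*U*U*W + 6*U*U*V - 5*U*U*V*W + 3*U*U*V*V - 9*U*U*V*V*W - 4*U*U*V*V*W*W - 4*U*U*V*V*V*W*W -
      U*U*U*V*V*W*W - U*U*U*V*V*V*W*W := ⟨_, rfl⟩
  obtain ⟨n2, hn2⟩ : ∃ n : A, n = -6 + 6*W - 9*V + 9*V*W - 3*V*V + 3*V*V*W + 3*U - 3*U*W + 6*U*V - 12*U*V*W + 3*U*V*V - 10*U*V*V*W - U*V*V*V*W - 3*U*U*W -
      10*U*U*V*W - 3*U*U*V*W*W - 9*U*U*V*V*W - 5*U*U*V*V*W*W - 2*U*U*V*V*V*W - 2*U*U*V*V*V*W*W := ⟨_, rfl⟩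
  obtain ⟨n3, hn3⟩ : ∃ n : A, n = 6 + 6*W - 3*V - 3*V*W - 6*V*V - 6*V*V*W - 3*U - 3*U*W - 6*U*V - 3*U*V*W + 2*U*V*W*W - 3*U*V*V - 2*U*V*V*W + 3*U*V*V*W*W +
      U*V*V*V*W + U*V*V*V*W*W + 9*U*U + 9*U*U*W - 6*U*U*V - 3*U*U*V*W + 4*U*U*V*W*W - 15*U*U*V*V - 5*U*U*V*V*W + 8*U*U*V*V*W*W +
      3*U*U*V*V*V*W + 3*U*U*V*V*V*W*W + U*U*U*V*W + U*U*U*V*W*W - U*U*U*V*V*V*W - U*U*U*V*V*V*W*W := ⟨_, rfl⟩
  have hd1 : dU n1 = 9*U + 18*U*W + 21*U*V - 12*U*V*W + 12*U*V*V - 29*U*V*V*W - 3*U*V*V*W*W - 3*U*V*V*V*W*W + 6*U*U + 12*U*U*W + 12*U*U*V -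
      10*U*U*V*W + 6*U*U*V*V - 18*U*U*V*V*W - 8*U*U*V*V*W*W - 8*U*U*V*V*V*W*W - 3*U*U*U*V*V*W*W - 3*U*U*U*V*V*V*W*W := by
    rw [hn1]
    simp only [DU.add, DU.sub, DU.neg, DU.mul, DU.pow, DU.num, DU.one, hU1, hV1, hW1,
      mul_zero, zero_mul, add_zero, zero_add, sub_zero, zero_sub]
    try push_cast
    try ring
  have hd2 : dV n2 = -9*V + 9*V*W - 6*V*V + 6*V*V*W + 6*U*V - 12*U*V*W + 6*U*V*V - 20*U*V*V*W - 3*U*V*V*V*W - 10*U*U*V*W - 3*U*U*V*W*W -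
      18*U*U*V*V*W - 10*U*U*V*V*W*W - 6*U*U*V*V*V*W - 6*U*U*V*V*V*W*W := by
    rw [hn2]
    simp only [DV.add, DV.sub, DV.neg, DV.mul, DV.pow, DV.num, DV.one, hU2, hV2, hW2,
      mul_zero, zero_mul, add_zero, zero_add, sub_zero, zero_sub]
    try push_cast
    try ring
  have hd3 : dW n3 = 6*W - 3*V*W - 6*V*V*W - 3*U*W - 3*U*V*W + 4*U*V*W*W - 2*U*V*V*W + 6*U*V*V*W*W + U*V*V*V*W + 2*U*V*V*V*W*W + 9*U*U*W -
      3*U*U*V*W + 8*U*U*V*W*W - 5*U*U*V*V*W + 16*U*U*V*V*W*W + 3*U*U*V*V*V*W + 6*U*U*V*V*V*W*W + U*U*U*V*W + 2*U*U*U*V*W*W -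
      U*U*U*V*V*V*W - 2*U*U*U*V*V*V*W*W := by
    rw [hn3]
    simp only [DW.add, DW.sub, DW.neg, DW.mul, DW.pow, DW.num, DW.one, hU3, hV3, hW3,
      mul_zero, zero_mul, add_zero, zero_add, sub_zero, zero_sub]
    try push_cast
    try ring
  refine ⟨n1, n2, n3, ?_⟩
  have hS1 : (dU n1 - n1) + (dV n2 - n2) + (dW n3 - n3) = -6 - 18*W - 12*V + 6*V*W - 6*V*V + 24*V*V*W + 3*U*W + 6*U*V + 2*U*V*W*W + 6*U*V*V - 10*U*V*V*W + 3*U*V*V*W*W - 2*U*V*V*V*W +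
      U*V*V*V*W*W - 6*U*U + 9*U*U*W + 12*U*U*V - 5*U*U*V*W + 4*U*U*V*W*W + 18*U*U*V*V - 18*U*U*V*V*W - U*U*V*V*W*W - 4*U*U*V*V*V*W
      - 5*U*U*V*V*V*W*W + U*U*U*V*W*W - 2*U*U*U*V*V*W*W - 3*U*U*U*V*V*V*W*W := by
    rw [hd1, hd2, hd3, hn1, hn2, hn3]
    ring
  have hq1 : dU (U * V + 3 * U + 3 * V + 6) = 3*U + U*V := by
    simp only [DU.add, DU.sub, DU.neg, DU.mul, DU.pow, DU.num, DU.one, hU1, hV1, hW1,
      mul_zero, zero_mul, add_zero, zero_add, sub_zero, zero_sub]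
    try push_cast
    try ring
  have hq2 : dV (U * V + 3 * U + 3 * V + 6) = 3*V + U*V := by
    simp only [DV.add, DV.sub, DV.neg, DV.mul, DV.pow, DV.num, DV.one, hU2, hV2, hW2,
      mul_zero, zero_mul, add_zero, zero_add, sub_zero, zero_sub]
    try push_cast
    try ring
  have hq3 : dW (U * V + 3 * U + 3 * V + 6) = 0 := by
    simp only [DW.add, DW.sub, DW.neg, DW.mul, DW.pow, DW.num, DW.one, hU3, hV3, hW3,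
      mul_zero, zero_mul, add_zero, zero_add, sub_zero, zero_sub]
    try push_cast
    try ring
  have hl1 : dU ((1 + U) * (1 + V) * (1 + W) * (U * V * W + 12)) = 12*U + 12*U*W + 12*U*V + 13*U*V*W + U*V*W*W + U*V*V*W + U*V*V*W*W + 2*U*U*V*W + 2*U*U*V*W*W + 2*U*U*V*V*W + 2*U*U*V*V*W*W := by
    simp only [DU.add, DU.sub, DU.neg, DU.mul, DU.pow, DU.num, DU.one, hU1, hV1, hW1,
      mul_zero, zero_mul, add_zero, zero_add, sub_zero, zero_sub]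
    try push_cast
    try ring
  have hl2 : dV ((1 + U) * (1 + V) * (1 + W) * (U * V * W + 12)) = 12*V + 12*V*W + 12*U*V + 13*U*V*W + U*V*W*W + 2*U*V*V*W + 2*U*V*V*W*W + U*U*V*W + U*U*V*W*W + 2*U*U*V*V*W + 2*U*U*V*V*W*W := by
    simp only [DV.add, DV.sub, DV.neg, DV.mul, DV.pow, DV.num, DV.one, hU2, hV2, hW2,
      mul_zero, zero_mul, add_zero, zero_add, sub_zero, zero_sub]
    try push_cast
    try ring
  have hl3 : dW ((1 + U) * (1 + V) * (1 + W) * (U * V * W + 12)) = 12*W + 12*V*W + 12*U*W + 13*U*V*W + 2*U*V*W*W + U*V*V*W + 2*U*V*V*W*W + U*U*V*W + 2*U*U*V*W*W + U*U*V*V*W + 2*U*U*V*V*W*W := by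
    simp only [DW.add, DW.sub, DW.neg, DW.mul, DW.pow, DW.num, DW.one, hU3, hV3, hW3,
      mul_zero, zero_mul, add_zero, zero_add, sub_zero, zero_sub]
    try push_cast
    try ring
  have hS2 : n1 * (3*U + U*V) + n2 * (3*V + U*V) + n3 * 0 = -18*V + 18*V*W - 27*V*V + 27*V*V*W - 9*V*V*V + 9*V*V*V*W + 18*U + 36*U*W + 54*U*V - 9*U*V*W + 51*U*V*V - 96*U*V*V*W +
      15*U*V*V*V - 48*U*V*V*V*W - 3*U*V*V*V*V*W + 27*U*U + 54*U*U*W + 75*U*U*V - 30*U*U*V*W + 63*U*U*V*V - 141*U*U*V*V*W -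
      18*U*U*V*V*W*W + 15*U*U*V*V*V - 66*U*U*V*V*V*W - 27*U*U*V*V*V*W*W - 7*U*U*V*V*V*V*W - 9*U*U*V*V*V*V*W*W + 9*U*U*U +
      18*U*U*U*W + 21*U*U*U*V - 12*U*U*U*V*W + 15*U*U*U*V*V - 42*U*U*U*V*V*W - 15*U*U*U*V*V*W*W + 3*U*U*U*V*V*V - 18*U*U*U*V*V*V*W
      - 21*U*U*U*V*V*V*W*W - 2*U*U*U*V*V*V*V*W - 6*U*U*U*V*V*V*V*W*W - 3*U*U*U*U*V*V*W*W - 4*U*U*U*U*V*V*V*W*W -
      U*U*U*U*V*V*V*V*W*W := by
    rw [hn1, hn2, hn3]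
    ring
  have hS3 : n1 * (12*U + 12*U*W + 12*U*V + 13*U*V*W + U*V*W*W + U*V*V*W + U*V*V*W*W + 2*U*U*V*W + 2*U*U*V*W*W + 2*U*U*V*V*W + 2*U*U*V*V*W*W - (1 + U) * (1 + V) * (1 + W) * (U * V * W + 12))
      + n2 * (12*V + 12*V*W + 12*U*V + 13*U*V*W + U*V*W*W + 2*U*V*V*W + 2*U*V*V*W*W + U*U*V*W + U*U*V*W*W + 2*U*U*V*V*W + 2*U*U*V*V*W*W - (1 + U) * (1 + V) * (1 + W) * (U * V * W + 12))
      + n3 * (12*W + 12*V*W + 12*U*W + 13*U*V*W + 2*U*V*W*W + U*V*V*W + 2*U*V*V*W*W + U*U*V*W + 2*U*U*V*W*W + U*U*V*V*W + 2*U*U*V*V*W*W - (1 + U) * (1 + V) * (1 + W) * (U * V * W + 12)) = -72 - 288*W - 216*W*W - 180*V - 360*V*W - 180*V*W*W - 144*V*V + 144*V*V*W + 288*V*V*W*W - 36*V*V*V + 216*V*V*V*W +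
      252*V*V*V*W*W - 108*U - 360*U*W - 252*U*W*W - 252*U*V - 324*U*V*W - 54*U*V*W*W + 6*U*V*W*W*W - 180*U*V*V + 342*U*V*V*W +
      555*U*V*V*W*W + 45*U*V*V*W*W*W - 36*U*V*V*V + 291*U*V*V*V*W + 375*U*V*V*V*W*W + 72*U*V*V*V*W*W*W - 15*U*V*V*V*V*W +
      18*U*V*V*V*V*W*W + 33*U*V*V*V*V*W*W*W - 144*U*U - 144*U*U*W - 108*U*U*V + 78*U*U*V*W + 237*U*U*V*W*W + 51*U*U*V*W*W*W +
      216*U*U*V*V + 426*U*U*V*V*W + 321*U*U*V*V*W*W + 114*U*U*V*V*W*W*W + 2*U*U*V*V*W*W*W*W + 180*U*U*V*V*V + 165*U*U*V*V*V*W +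
      57*U*U*V*V*V*W*W + 76*U*U*V*V*V*W*W*W + 5*U*U*V*V*V*W*W*W*W - 39*U*U*V*V*V*V*W - 28*U*U*V*V*V*V*W*W + 13*U*U*V*V*V*V*W*W*W +
      4*U*U*V*V*V*V*W*W*W*W - U*U*V*V*V*V*V*W*W + U*U*V*V*V*V*V*W*W*W*W - 108*U*U*U - 72*U*U*U*W + 36*U*U*U*W*W - 36*U*U*U*V +
      45*U*U*U*V*W + 129*U*U*U*V*W*W + 60*U*U*U*V*W*W*W + 252*U*U*U*V*V + 225*U*U*U*V*V*W + 51*U*U*U*V*V*W*W + 72*U*U*U*V*V*W*W*W
      + 6*U*U*U*V*V*W*W*W*W + 180*U*U*U*V*V*V + 99*U*U*U*V*V*V*W - 102*U*U*U*V*V*V*W*W - 34*U*U*U*V*V*V*W*W*W +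
      11*U*U*U*V*V*V*W*W*W*W - 9*U*U*U*V*V*V*V*W - 63*U*U*U*V*V*V*V*W*W - 50*U*U*U*V*V*V*V*W*W*W + 4*U*U*U*V*V*V*V*W*W*W*W -
      3*U*U*U*V*V*V*V*V*W*W - 4*U*U*U*V*V*V*V*V*W*W*W - U*U*U*V*V*V*V*V*W*W*W*W - 9*U*U*U*U*V*W + 6*U*U*U*U*V*W*W +
      15*U*U*U*U*V*W*W*W - 3*U*U*U*U*V*V*W - 2*U*U*U*U*V*V*W*W + 5*U*U*U*U*V*V*W*W*W + 5*U*U*U*U*V*V*W*W*W*W + 21*U*U*U*U*V*V*V*W
      - 24*U*U*U*U*V*V*V*W*W - 38*U*U*U*U*V*V*V*W*W*W + 6*U*U*U*U*V*V*V*W*W*W*W + 15*U*U*U*U*V*V*V*V*W - 18*U*U*U*U*V*V*V*V*W*W -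
      34*U*U*U*U*V*V*V*V*W*W*W - 3*U*U*U*U*V*V*V*V*W*W*W*W - 2*U*U*U*U*V*V*V*V*V*W*W - 6*U*U*U*U*V*V*V*V*V*W*W*W -
      4*U*U*U*U*V*V*V*V*V*W*W*W*W + U*U*U*U*U*V*V*W*W*W + U*U*U*U*U*V*V*W*W*W*W - 3*U*U*U*U*U*V*V*V*V*W*W*W -
      3*U*U*U*U*U*V*V*V*V*W*W*W*W - 2*U*U*U*U*U*V*V*V*V*V*W*W*W - 2*U*U*U*U*U*V*V*V*V*V*W*W*W*W := by
    rw [hn1, hn2, hn3]
    ring
  have hQS : (U * V + 3 * U + 3 * V + 6) * (-6 - 18*W - 12*V + 6*V*W - 6*V*V + 24*V*V*W + 3*U*W + 6*U*V + 2*U*V*W*W + 6*U*V*V - 10*U*V*V*W + 3*U*V*V*W*W - 2*U*V*V*V*W +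
      U*V*V*V*W*W - 6*U*U + 9*U*U*W + 12*U*U*V - 5*U*U*V*W + 4*U*U*V*W*W + 18*U*U*V*V - 18*U*U*V*V*W - U*U*V*V*W*W - 4*U*U*V*V*V*W
      - 5*U*U*V*V*V*W*W + U*U*U*V*W*W - 2*U*U*U*V*V*W*W - 3*U*U*U*V*V*V*W*W)
      - (-18*V + 18*V*W - 27*V*V + 27*V*V*W - 9*V*V*V + 9*V*V*V*W + 18*U + 36*U*W + 54*U*V - 9*U*V*W + 51*U*V*V - 96*U*V*V*W +
      15*U*V*V*V - 48*U*V*V*V*W - 3*U*V*V*V*V*W + 27*U*U + 54*U*U*W + 75*U*U*V - 30*U*U*V*W + 63*U*U*V*V - 141*U*U*V*V*W -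
      18*U*U*V*V*W*W + 15*U*U*V*V*V - 66*U*U*V*V*V*W - 27*U*U*V*V*V*W*W - 7*U*U*V*V*V*V*W - 9*U*U*V*V*V*V*W*W + 9*U*U*U +
      18*U*U*U*W + 21*U*U*U*V - 12*U*U*U*V*W + 15*U*U*U*V*V - 42*U*U*U*V*V*W - 15*U*U*U*V*V*W*W + 3*U*U*U*V*V*V - 18*U*U*U*V*V*V*W
      - 21*U*U*U*V*V*V*W*W - 2*U*U*U*V*V*V*V*W - 6*U*U*U*V*V*V*V*W*W - 3*U*U*U*U*V*V*W*W - 4*U*U*U*U*V*V*V*W*W -
      U*U*U*U*V*V*V*V*W*W) = -36 - 108*W - 72*V - 36*V*W - 45*V*V + 135*V*V*W - 9*V*V*V + 63*V*V*V*W - 36*U - 72*U*W - 60*U*V + 18*U*V*W + 12*U*V*W*W -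
      27*U*V*V + 114*U*V*V*W + 24*U*V*V*W*W - 3*U*V*V*V + 30*U*V*V*V*W + 15*U*V*V*V*W*W - 3*U*V*V*V*V*W + 3*U*V*V*V*V*W*W - 63*U*U
      + 9*U*U*W - 3*U*U*V + 30*U*U*V*W + 30*U*U*V*W*W + 105*U*U*V*V - 12*U*U*V*V*W + 35*U*U*V*V*W*W + 45*U*U*V*V*V -
      28*U*U*V*V*V*W - 7*U*U*V*V*V*V*W - 5*U*U*V*V*V*V*W*W - 27*U*U*U + 9*U*U*U*W + 9*U*U*U*V + 6*U*U*U*V*W + 18*U*U*U*V*W*W +
      51*U*U*U*V*V - 17*U*U*U*V*V*W + 7*U*U*U*V*V*W*W + 15*U*U*U*V*V*V - 12*U*U*U*V*V*V*W - 19*U*U*U*V*V*V*W*W - 2*U*U*U*V*V*V*V*W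
      - 8*U*U*U*V*V*V*V*W*W + 3*U*U*U*U*V*W*W - 2*U*U*U*U*V*V*W*W - 7*U*U*U*U*V*V*V*W*W - 2*U*U*U*U*V*V*V*V*W*W := by
    ring
  rw [hS1, hq1, hq2, hq3, hl1, hl2, hl3, hS2, hS3, hQS]
  ring

theorem CER12 : ∃ P1 P2 P3 : HS ℤ,
    (Lam (12 : ℤ) - 1) * (DU P1 + DV P2 + DW P3)
      - (P1 * DU (Lam 12) + P2 * DV (Lam 12) + P3 * DW (Lam 12))
      = HahnSeries.C 1 * (Lam (12 : ℤ) - 1) - HahnSeries.C 2 * thLam (12 : ℤ) := by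
  obtain ⟨q, hq⟩ := cer12_isUnit.exists_right_inv
  have hT : mon ℤ 1 1 1 = mon ℤ 1 0 0 * mon ℤ 0 1 0 * mon ℤ 0 0 1 := by
    rw [mon_mul, mon_mul]; norm_num
  have hUV : mon ℤ 1 1 0 = mon ℤ 1 0 0 * mon ℤ 0 1 0 := by
    rw [mon_mul]; norm_num
  have hd : ∀ (l : Gam →+ ℤ) (u v w : ℤ), dl l (mon ℤ u v w) = (l (ex u v w) : HS ℤ) * mon ℤ u v w := by
    intro l u v w
    rw [dl_mon]
    simp
  have h12 : (HahnSeries.C (12 : ℤ) : HS ℤ) = 12 := map_ofNat _ _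
  have h2 : (HahnSeries.C (2 : ℤ) : HS ℤ) = 2 := map_ofNat _ _
  have h1 : (HahnSeries.C (1 : ℤ) : HS ℤ) = 1 := map_one _
  have hD : ∀ l : Gam →+ ℤ, C12D (dl l : HS ℤ → HS ℤ) := fun l =>
    ⟨dl_add l, dl_sub l, dl_neg l, dl_mul l, dl_pow l, fun n _ => cer12_nat l n, dl_one l⟩
  obtain ⟨n1, n2, n3, hn⟩ := cer12_poly (mon ℤ 1 0 0) (mon ℤ 0 1 0) (mon ℤ 0 0 1)
    (dl lU) (dl lV) (dl lW) (hD _) (hD _) (hD _)
    (by rw [hd, lU_ex]; simp) (by rw [hd, lV_ex]; simp) (by rw [hd, lW_ex]; simp)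
    (by rw [hd, lU_ex]; simp) (by rw [hd, lV_ex]; simp) (by rw [hd, lW_ex]; simp)
    (by rw [hd, lU_ex]; simp) (by rw [hd, lV_ex]; simp) (by rw [hd, lW_ex]; simp)
  have hq' : (mon ℤ 1 0 0 * mon ℤ 0 1 0 + 3 * mon ℤ 1 0 0 + 3 * mon ℤ 0 1 0 + 6 : HS ℤ) * q = 1 := by
    rw [← hUV, ← hq, mon_zero, mul_one]
  refine cer_reduce 12 2 1 _ q n1 n2 n3 _ hq' (by rw [h12, hT]) ?_
  rw [h1, h2, h12, hT]
  exact hn

end Pool.Agent.Lib_helper91.TC
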