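import Pool.Agent.Lib_helper91.TC.HA

namespace Pool.Agent.Lib_helper91.TC

open Finset

/-! ### list polynomials -/

/-- sum of two lists -/
def CER20_add {S : Type} (add : S → S → S) : List S → List S → List S
  | [], m => m
  | a :: l, [] => a :: l
  | a :: l, b :: m => add a b :: CER20_add add l m

/-- product of two lists -/
def CER20_mul {S : Type} (add mul : S → S → S) (z : S) : List S → List S → List S
  | [], _ => []
  | a :: l, m => CER20_add add (m.map (mul a)) (z :: CER20_mul add mul z l m)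

/-- the derivation at the top level -/
def CER20_der {S : Type} (sm : ℤ → S → S) : ℤ → List S → List S
  | _, [] => []
  | k, c :: l => sm k c :: CER20_der sm (k + 1) l

section

variable {S T : Type} [CommRing T]

theorem CER20_hor_add (f : S → T) (a : T) (add : S → S → S) (hf : ∀ x y, f (add x y) = f x + f y)
    (l m : List S) : hor f a (CER20_add add l m) = hor f a l + hor f a m := by
  induction l generalizing m with
  | nil => simp [CER20_add, hor]
  | cons x l ih =>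
    cases m with
    | nil => simp [CER20_add, hor]
    | cons y m =>
      simp only [CER20_add, hor, ih, hf]
      ring

theorem CER20_hor_map_mul (f : S → T) (a : T) (mul : S → S → S) (hf : ∀ x y, f (mul x y) = f x * f y)
    (x : S) (m : List S) : hor f a (m.map (mul x)) = f x * hor f a m := by
  induction m with
  | nil => simp [hor]
  | cons y m ih =>
    simp only [List.map_cons, hor, ih, hf]
    ring

theorem CER20_hor_mul (f : S → T) (a : T) (add mul : S → S → S) (z : S)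
    (hadd : ∀ x y, f (add x y) = f x + f y) (hmul : ∀ x y, f (mul x y) = f x * f y) (hz : f z = 0)
    (l m : List S) : hor f a (CER20_mul add mul z l m) = hor f a l * hor f a m := by
  induction l with
  | nil => simp [CER20_mul, hor]
  | cons x l ih =>
    simp only [CER20_mul, CER20_hor_add f a add hadd, CER20_hor_map_mul f a mul hmul, hor, hz, ih]
    ring

theorem CER20_hor_map (f : S → T) (a : T) (g : S → S) (c : T) (hg : ∀ x, f (g x) = c * f x)
    (l : List S) : hor f a (l.map g) = c * hor f a l := by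
  induction l with
  | nil => simp [hor]
  | cons y m ih =>
    simp only [List.map_cons, hor, ih, hg]
    ring

theorem CER20_hor_all (f : S → T) (a : T) (p : S → Bool) (hp : ∀ x, p x = true → f x = 0)
    (l : List S) (h : l.all p = true) : hor f a l = 0 := by
  induction l with
  | nil => simp [hor]
  | cons y m ih =>
    rw [List.all_cons, Bool.and_eq_true] at h
    simp only [hor, ih h.2, hp y h.1, mul_zero, add_zero]

/-- derivation killing the coefficients and fixing the variable -/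
theorem CER20_hor_der (D : T → T) (hDa : ∀ x y, D (x + y) = D x + D y)
    (hDm : ∀ x y, D (x * y) = D x * y + x * D y) (hD0 : D 0 = 0)
    (f : S → T) (a : T) (hf : ∀ x, D (f x) = 0) (ha : D a = a) (sm : ℤ → S → S)
    (hs : ∀ k x, f (sm k x) = (k : T) * f x)
    (l : List S) (k : ℤ) : hor f a (CER20_der sm k l) = (k : T) * hor f a l + D (hor f a l) := by
  induction l generalizing k with
  | nil => simp [CER20_der, hor, hD0]
  | cons x l ih =>
    simp only [CER20_der, hor, hs, ih, hDa, hDm, hf, ha]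
    push_cast
    ring

/-- derivation killing the variable -/
theorem CER20_hor_der' (D : T → T) (hDa : ∀ x y, D (x + y) = D x + D y)
    (hDm : ∀ x y, D (x * y) = D x * y + x * D y) (hD0 : D 0 = 0)
    (f : S → T) (a : T) (g : S → S) (hf : ∀ x, D (f x) = f (g x)) (ha : D a = 0)
    (l : List S) : D (hor f a l) = hor f a (l.map g) := by
  induction l with
  | nil => simp [hor, hD0]
  | cons x l ih =>
    simp only [List.map_cons, hor, hDa, hDm, hf, ha, ih]
    ring

theorem CER20_hor_der0 (D : T → T) (hDa : ∀ x y, D (x + y) = D x + D y)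
    (hDm : ∀ x y, D (x * y) = D x * y + x * D y) (hD0 : D 0 = 0)
    (f : S → T) (a : T) (hf : ∀ x, D (f x) = 0) (ha : D a = 0)
    (l : List S) : D (hor f a l) = 0 := by
  induction l with
  | nil => simp [hor, hD0]
  | cons x l ih =>
    simp only [hor, hDa, hDm, hf, ha, ih]
    ring

end

/-! ### the three levels -/

/-- Gaussian addition -/
def CER20_ga : ℤ × ℤ → ℤ × ℤ → ℤ × ℤ
  | (a, b), (c, d) => (a + c, b + d)
/-- Gaussian multiplication -/
def CER20_gm : ℤ × ℤ → ℤ × ℤ → ℤ × ℤ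
  | (a, b), (c, d) => (a * c - b * d, a * d + b * c)
/-- integer times Gaussian -/
def CER20_gs (k : ℤ) : ℤ × ℤ → ℤ × ℤ
  | (a, b) => (k * a, k * b)
/-- zero test -/
def CER20_gz : ℤ × ℤ → Bool
  | (a, b) => (a == 0) && (b == 0)

abbrev CER20_L1 : Type := List (ℤ × ℤ)
abbrev CER20_L2 : Type := List CER20_L1
abbrev CER20_L3 : Type := List CER20_L2

def CER20_a1 : CER20_L1 → CER20_L1 → CER20_L1 := CER20_add CER20_ga
def CER20_m1 : CER20_L1 → CER20_L1 → CER20_L1 := CER20_mul CER20_ga CER20_gm (0, 0)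
def CER20_s1 (k : ℤ) : CER20_L1 → CER20_L1 := List.map (CER20_gs k)
def CER20_a2 : CER20_L2 → CER20_L2 → CER20_L2 := CER20_add CER20_a1
def CER20_m2 : CER20_L2 → CER20_L2 → CER20_L2 := CER20_mul CER20_a1 CER20_m1 []
def CER20_s2 (k : ℤ) : CER20_L2 → CER20_L2 := List.map (CER20_s1 k)
def CER20_a3 : CER20_L3 → CER20_L3 → CER20_L3 := CER20_add CER20_a2
def CER20_m3 : CER20_L3 → CER20_L3 → CER20_L3 := CER20_mul CER20_a2 CER20_m2 []
def CER20_s3 (k : ℤ) : CER20_L3 → CER20_L3 := List.map (CER20_s2 k)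
/-- zero test -/
def CER20_z3 (l : CER20_L3) : Bool := l.all fun m => m.all fun n => n.all CER20_gz
def CER20_dU : CER20_L3 → CER20_L3 := CER20_der CER20_s2 0
def CER20_dV : CER20_L3 → CER20_L3 := List.map (CER20_der CER20_s1 0)
def CER20_dW : CER20_L3 → CER20_L3 := List.map (List.map (CER20_der CER20_gs 0))

/-- `UVW` -/
def CER20_T : CER20_L3 := [[], [[], [(0, 0), (1, 0)]]]
/-- `(1+U)(1+V)(1+W)` -/
def CER20_E : CER20_L3 := [[[(1, 0), (1, 0)], [(1, 0), (1, 0)]], [[(1, 0), (1, 0)], [(1, 0), (1, 0)]]]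
/-- `E (UVW - 20)` -/
def CER20_l : CER20_L3 := CER20_m3 CER20_E (CER20_a3 CER20_T [[[(-20, 0)]]])
def CER20_sub (a b : CER20_L3) : CER20_L3 := CER20_a3 a (CER20_s3 (-1) b)

def CER20_n : CER20_L3 :=
  CER20_sub (CER20_a3 (CER20_dU n20_1) (CER20_a3 (CER20_dV n20_2) (CER20_dW n20_3)))
    (CER20_a3 n20_1 (CER20_a3 n20_2 n20_3))

def CER20_S : CER20_L3 :=
  CER20_sub (CER20_m3 q20 CER20_n)
    (CER20_a3 (CER20_m3 (CER20_dU q20) n20_1) (CER20_a3 (CER20_m3 (CER20_dV q20) n20_2) (CER20_m3 (CER20_dW q20) n20_3)))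

def CER20_R : CER20_L3 :=
  CER20_a3 (CER20_m3 (CER20_sub (CER20_dU CER20_l) CER20_l) n20_1)
    (CER20_a3 (CER20_m3 (CER20_sub (CER20_dV CER20_l) CER20_l) n20_2)
      (CER20_m3 (CER20_sub (CER20_dW CER20_l) CER20_l) n20_3))

def CER20_lhs : CER20_L3 :=
  CER20_sub (CER20_m3 (CER20_sub CER20_l CER20_T) CER20_S) (CER20_m3 q20 CER20_R)

/-- `4 (l - T) + 120 E` -/
def CER20_rr : CER20_L3 :=
  CER20_a3 (CER20_s3 4 (CER20_sub CER20_l CER20_T)) (CER20_s3 120 CER20_E)

def CER20_rhs : CER20_L3 :=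
  CER20_m3 CER20_T (CER20_m3 CER20_rr (CER20_m3 q20 q20))

set_option maxRecDepth 100000 in
theorem CER20_check : CER20_z3 (CER20_sub CER20_lhs CER20_rhs) = true := by
  decide +kernel


/-! ### soundness -/


theorem CER20_f0_add (x y : ℤ × ℤ) : fG (CER20_ga x y) = fG x + fG y := by
  rcases x with ⟨a, b⟩
  rcases y with ⟨c, d⟩
  simp only [fG, CER20_ga]
  rw [← map_add]
  congr 1

theorem CER20_f0_mul (x y : ℤ × ℤ) : fG (CER20_gm x y) = fG x * fG y := by
  rcases x with ⟨a, b⟩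
  rcases y with ⟨c, d⟩
  simp only [fG, CER20_gm]
  rw [← map_mul]
  congr 1
  apply Zsqrtd.ext
  · simp; ring
  · simp

theorem CER20_f0_int (k : ℤ) : fG (k, 0) = (k : HS GaussianInt) := by
  simp only [fG]
  have h : (⟨k, 0⟩ : GaussianInt) = (k : GaussianInt) := by
    apply Zsqrtd.ext <;> simp
  rw [h, map_intCast]

theorem CER20_f0_smul (k : ℤ) (x : ℤ × ℤ) : fG (CER20_gs k x) = (k : HS GaussianInt) * fG x := by
  rw [← CER20_f0_int, ← CER20_f0_mul]
  rcases x with ⟨a, b⟩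
  simp [CER20_gm, CER20_gs]

theorem CER20_f0_zero : fG (0, 0) = 0 := by
  rw [CER20_f0_int]; simp

theorem CER20_f0_z (x : ℤ × ℤ) (h : CER20_gz x = true) : fG x = 0 := by
  rcases x with ⟨a, b⟩
  simp only [CER20_gz, Bool.and_eq_true, beq_iff_eq] at h
  rw [h.1, h.2, CER20_f0_zero]

theorem CER20_f0_D (l : Gam →+ ℤ) (x : ℤ × ℤ) : dl l (fG x) = 0 := by
  simp only [fG]
  exact dl_C l _

/-- level one -/
noncomputable def CER20_f1 : CER20_L1 → HS GaussianInt := hor fG (mon GaussianInt 0 0 1)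
/-- level two -/
noncomputable def CER20_f2 : CER20_L2 → HS GaussianInt := hor CER20_f1 (mon GaussianInt 0 1 0)
/-- level three -/
noncomputable def CER20_f3 : CER20_L3 → HS GaussianInt := hor CER20_f2 (mon GaussianInt 1 0 0)

theorem CER20_f3_eq (l : CER20_L3) : pev fG l = CER20_f3 l := rfl

theorem CER20_f1_add (x y : CER20_L1) : CER20_f1 (CER20_a1 x y) = CER20_f1 x + CER20_f1 y :=
  CER20_hor_add _ _ _ CER20_f0_add x y
theorem CER20_f1_mul (x y : CER20_L1) : CER20_f1 (CER20_m1 x y) = CER20_f1 x * CER20_f1 y :=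
  CER20_hor_mul _ _ _ _ _ CER20_f0_add CER20_f0_mul CER20_f0_zero x y
theorem CER20_f1_smul (k : ℤ) (x : CER20_L1) : CER20_f1 (CER20_s1 k x) = (k : HS GaussianInt) * CER20_f1 x :=
  CER20_hor_map _ _ _ _ (CER20_f0_smul k) x
theorem CER20_f2_add (x y : CER20_L2) : CER20_f2 (CER20_a2 x y) = CER20_f2 x + CER20_f2 y :=
  CER20_hor_add _ _ _ CER20_f1_add x y
theorem CER20_f2_mul (x y : CER20_L2) : CER20_f2 (CER20_m2 x y) = CER20_f2 x * CER20_f2 y :=
  CER20_hor_mul _ _ _ _ _ CER20_f1_add CER20_f1_mul rfl x y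
theorem CER20_f2_smul (k : ℤ) (x : CER20_L2) : CER20_f2 (CER20_s2 k x) = (k : HS GaussianInt) * CER20_f2 x :=
  CER20_hor_map _ _ _ _ (CER20_f1_smul k) x
theorem CER20_f3_add (x y : CER20_L3) : CER20_f3 (CER20_a3 x y) = CER20_f3 x + CER20_f3 y :=
  CER20_hor_add _ _ _ CER20_f2_add x y
theorem CER20_f3_mul (x y : CER20_L3) : CER20_f3 (CER20_m3 x y) = CER20_f3 x * CER20_f3 y :=
  CER20_hor_mul _ _ _ _ _ CER20_f2_add CER20_f2_mul rfl x y
theorem CER20_f3_smul (k : ℤ) (x : CER20_L3) : CER20_f3 (CER20_s3 k x) = (k : HS GaussianInt) * CER20_f3 x :=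
  CER20_hor_map _ _ _ _ (CER20_f2_smul k) x
theorem CER20_f3_sub (x y : CER20_L3) : CER20_f3 (CER20_sub x y) = CER20_f3 x - CER20_f3 y := by
  rw [CER20_sub, CER20_f3_add, CER20_f3_smul]
  push_cast
  ring
theorem CER20_f3_z (l : CER20_L3) (h : CER20_z3 l = true) : CER20_f3 l = 0 := by
  apply CER20_hor_all _ _ _ _ l h
  intro x hx
  apply CER20_hor_all _ _ _ _ x hx
  intro y hy
  exact CER20_hor_all _ _ _ CER20_f0_z y hy

theorem CER20_dl_zero (l : Gam →+ ℤ) : dl l (0 : HS GaussianInt) = 0 := by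
  have := dl_C (R := GaussianInt) l 0
  rwa [map_zero] at this

theorem CER20_dmon (l : Gam →+ ℤ) (u v w : ℤ) (h : l (ex u v w) = 0) : dl l (mon GaussianInt u v w) = 0 := by
  rw [dl_mon, h]
  simp

theorem CER20_dmon1 (l : Gam →+ ℤ) (u v w : ℤ) (h : l (ex u v w) = 1) :
    dl l (mon GaussianInt u v w) = mon GaussianInt u v w := by
  rw [dl_mon, h]
  simp

theorem CER20_DU (l : CER20_L3) : DU (CER20_f3 l) = CER20_f3 (CER20_dU l) := by
  have h1 : ∀ x : CER20_L1, dl lU (CER20_f1 x) = 0 := fun x =>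
    CER20_hor_der0 (dl lU) (dl_add lU) (dl_mul lU) (CER20_dl_zero lU) _ _ (CER20_f0_D lU)
      (CER20_dmon _ _ _ _ (lU_ex _ _ _)) x
  have h2 : ∀ x : CER20_L2, dl lU (CER20_f2 x) = 0 := fun x =>
    CER20_hor_der0 (dl lU) (dl_add lU) (dl_mul lU) (CER20_dl_zero lU) _ _ h1
      (CER20_dmon _ _ _ _ (lU_ex _ _ _)) x
  have h3 := CER20_hor_der (dl lU) (dl_add lU) (dl_mul lU) (CER20_dl_zero lU) CER20_f2 (mon GaussianInt 1 0 0) h2
    (CER20_dmon1 _ _ _ _ (lU_ex _ _ _)) CER20_s2 CER20_f2_smul l 0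
  change dl lU (hor CER20_f2 (mon GaussianInt 1 0 0) l)
    = hor CER20_f2 (mon GaussianInt 1 0 0) (CER20_der CER20_s2 0 l)
  rw [h3]
  push_cast
  ring

theorem CER20_DV (l : CER20_L3) : DV (CER20_f3 l) = CER20_f3 (CER20_dV l) := by
  have h1 : ∀ x : CER20_L1, dl lV (CER20_f1 x) = 0 := fun x =>
    CER20_hor_der0 (dl lV) (dl_add lV) (dl_mul lV) (CER20_dl_zero lV) _ _ (CER20_f0_D lV)
      (CER20_dmon _ _ _ _ (lV_ex _ _ _)) x
  have h2 : ∀ x : CER20_L2, dl lV (CER20_f2 x) = CER20_f2 (CER20_der CER20_s1 0 x) := by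
    intro x
    have h3 := CER20_hor_der (dl lV) (dl_add lV) (dl_mul lV) (CER20_dl_zero lV) CER20_f1 (mon GaussianInt 0 1 0) h1
      (CER20_dmon1 _ _ _ _ (lV_ex _ _ _)) CER20_s1 CER20_f1_smul x 0
    change dl lV (hor CER20_f1 (mon GaussianInt 0 1 0) x)
      = hor CER20_f1 (mon GaussianInt 0 1 0) (CER20_der CER20_s1 0 x)
    rw [h3]
    push_cast
    ring
  exact CER20_hor_der' (dl lV) (dl_add lV) (dl_mul lV) (CER20_dl_zero lV) CER20_f2 (mon GaussianInt 1 0 0) _ h2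
      (CER20_dmon _ _ _ _ (lV_ex _ _ _)) l

theorem CER20_DW (l : CER20_L3) : DW (CER20_f3 l) = CER20_f3 (CER20_dW l) := by
  have h1 : ∀ x : CER20_L1, dl lW (CER20_f1 x) = CER20_f1 (CER20_der CER20_gs 0 x) := by
    intro x
    have h3 := CER20_hor_der (dl lW) (dl_add lW) (dl_mul lW) (CER20_dl_zero lW) fG (mon GaussianInt 0 0 1) (CER20_f0_D lW)
      (CER20_dmon1 _ _ _ _ (lW_ex _ _ _)) CER20_gs CER20_f0_smul x 0
    change dl lW (hor fG (mon GaussianInt 0 0 1) x)
      = hor fG (mon GaussianInt 0 0 1) (CER20_der CER20_gs 0 x)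
    rw [h3]
    push_cast
    ring
  have h2 : ∀ x : CER20_L2, dl lW (CER20_f2 x) = CER20_f2 (x.map (CER20_der CER20_gs 0)) := fun x =>
    CER20_hor_der' (dl lW) (dl_add lW) (dl_mul lW) (CER20_dl_zero lW) CER20_f1 (mon GaussianInt 0 1 0) _ h1
      (CER20_dmon _ _ _ _ (lW_ex _ _ _)) x
  exact CER20_hor_der' (dl lW) (dl_add lW) (dl_mul lW) (CER20_dl_zero lW) CER20_f2 (mon GaussianInt 1 0 0) _ h2
      (CER20_dmon _ _ _ _ (lW_ex _ _ _)) l

theorem CER20_fT : CER20_f3 CER20_T = mon GaussianInt 1 1 1 := by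
  simp only [CER20_f3, CER20_f2, CER20_f1, CER20_T, hor, CER20_f0_int]
  push_cast
  have h : mon GaussianInt 1 1 1 = mon GaussianInt 1 0 0 * (mon GaussianInt 0 1 0 * mon GaussianInt 0 0 1) := by
    rw [mon_mul, mon_mul]; norm_num
  rw [h]; ring

theorem CER20_fE : CER20_f3 CER20_E = EE GaussianInt := by
  simp only [CER20_f3, CER20_f2, CER20_f1, CER20_E, hor, CER20_f0_int, EE]
  push_cast
  ring

theorem CER20_fx : CER20_f3 [[[(-20, 0)]]] = -20 := by
  simp only [CER20_f3, CER20_f2, CER20_f1, hor, CER20_f0_int]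
  push_cast
  ring

theorem CER20_fl : CER20_f3 CER20_l = EE GaussianInt * (mon GaussianInt 1 1 1 - 20) := by
  rw [CER20_l, CER20_f3_mul, CER20_f3_add, CER20_fE, CER20_fT, CER20_fx]
  ring

/-! ### the denominator is a unit -/

theorem CER20_ex_lt (u v w u' v' w' : ℤ) :
    ex u v w < ex u' v' w' ↔ u' < u ∨ (u = u' ∧ (v' < v ∨ (v = v' ∧ w < w'))) := by
  simp only [ex, Prod.Lex.toLex_lt_toLex]
  constructor
  · rintro (h | ⟨h1, h2 | ⟨h2, h3⟩⟩)
    · left; omega
    · right; exact ⟨by omega, Or.inl (by omega)⟩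
    · right; exact ⟨by omega, Or.inr ⟨by omega, h3⟩⟩
  · rintro (h | ⟨h1, h2 | ⟨h2, h3⟩⟩)
    · left; omega
    · right; exact ⟨by omega, Or.inl (by omega)⟩
    · right; exact ⟨by omega, Or.inr ⟨by omega, h3⟩⟩

/-- all exponents are above `a` -/
def CER20_hi (a : Gam) (f : HS GaussianInt) : Prop := ∀ g ≤ a, f.coeff g = 0

theorem CER20_hi_add (a : Gam) (f g : HS GaussianInt) (hf : CER20_hi a f) (hg : CER20_hi a g) :
    CER20_hi a (f + g) := by
  intro b hb
  rw [HahnSeries.coeff_add, hf b hb, hg b hb, add_zero]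

theorem CER20_hi_mon (a : Gam) (c : GaussianInt) (u v w : ℤ) (h : a < ex u v w) :
    CER20_hi a (HahnSeries.C c * mon GaussianInt u v w) := by
  intro b hb
  rw [HahnSeries.C_apply, HahnSeries.coeff_single_zero_mul, mon, HahnSeries.coeff_single_of_ne, mul_zero]
  exact ne_of_lt (lt_of_le_of_lt hb h)


theorem CER20_Qexp : CER20_f3 q20 = mon GaussianInt 3 3 0 + (HahnSeries.C ⟨-24, -32⟩ * mon GaussianInt 0 0 0 + HahnSeries.C ⟨-20, -40⟩ * mon GaussianInt 0 1 0 + HahnSeries.C ⟨-52, -56⟩ * mon GaussianInt 1 0 0 + HahnSeries.C ⟨-36, -72⟩ * mon GaussianInt 1 1 0 + HahnSeries.C ⟨8, -4⟩ * mon GaussianInt 1 2 0 + HahnSeries.C ⟨-32, -16⟩ * mon GaussianInt 2 0 0 + HahnSeries.C ⟨-20, -20⟩ * mon GaussianInt 2 1 0 + HahnSeries.C ⟨10, 0⟩ * mon GaussianInt 2 2 0 + HahnSeries.C ⟨1, 0⟩ * mon GaussianInt 2 3 0 + HahnSeries.C ⟨-4, 8⟩ * mon GaussianInt 3 0 0 + HahnSeries.C ⟨-4, 12⟩ * mon GaussianInt 3 1 0 + HahnSeries.C ⟨1, 4⟩ * mon GaussianInt 3 2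 0) := by
  have hm : ∀ u v w : ℕ, mon GaussianInt u v w = mon GaussianInt 1 0 0 ^ u * mon GaussianInt 0 1 0 ^ v * mon GaussianInt 0 0 1 ^ w := by
    intro u v w
    rw [mon_pow, mon_pow, mon_pow, mon_mul, mon_mul]
    simp
  have h000 := hm 0 0 0
  push_cast at h000
  have h010 := hm 0 1 0
  push_cast at h010
  have h100 := hm 1 0 0
  push_cast at h100
  have h110 := hm 1 1 0
  push_cast at h110
  have h120 := hm 1 2 0
  push_cast at h120
  have h200 := hm 2 0 0
  push_cast at h200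
  have h210 := hm 2 1 0
  push_cast at h210
  have h220 := hm 2 2 0
  push_cast at h220
  have h230 := hm 2 3 0
  push_cast at h230
  have h300 := hm 3 0 0
  push_cast at h300
  have h310 := hm 3 1 0
  push_cast at h310
  have h320 := hm 3 2 0
  push_cast at h320
  have h330 := hm 3 3 0
  push_cast at h330
  rw [h000, h010, h100, h110, h120, h200, h210, h220, h230, h300, h310, h320, h330]
  have h1 : (HahnSeries.C (⟨1, 0⟩ : GaussianInt) : HS GaussianInt) = 1 := by
    have h := CER20_f0_int 1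
    simp only [fG] at h
    rw [h]; simp
  simp only [CER20_f3, CER20_f2, CER20_f1, q20, hor, fG, h1]
  ring

theorem CER20_hi_rest : CER20_hi (ex 3 3 0) (HahnSeries.C ⟨-24, -32⟩ * mon GaussianInt 0 0 0 + HahnSeries.C ⟨-20, -40⟩ * mon GaussianInt 0 1 0 + HahnSeries.C ⟨-52, -56⟩ * mon GaussianInt 1 0 0 + HahnSeries.C ⟨-36, -72⟩ * mon GaussianInt 1 1 0 + HahnSeries.C ⟨8, -4⟩ * mon GaussianInt 1 2 0 + HahnSeries.C ⟨-32, -16⟩ * mon GaussianInt 2 0 0 + HahnSeries.C ⟨-20, -20⟩ * mon GaussianInt 2 1 0 + HahnSeries.C ⟨10, 0⟩ * mon GaussianInt 2 2 0 + HahnSeries.C ⟨1, 0⟩ * mon GaussianInt 2 3 0 + HahnSeries.C ⟨-4, 8⟩ * mon GaussianInt 3 0 0 + HahnSeries.C ⟨-4, 12⟩ * mon GaussianInt 3 1 0 + HahnSeries.C ⟨1, 4⟩ * mon GaussianInt 3 2 0) := by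
  refine CER20_hi_add _ _ _ (CER20_hi_add _ _ _ (CER20_hi_add _ _ _ (CER20_hi_add _ _ _ (CER20_hi_add _ _ _ (CER20_hi_add _ _ _ (CER20_hi_add _ _ _ (CER20_hi_add _ _ _ (CER20_hi_add _ _ _ (CER20_hi_add _ _ _ (CER20_hi_add _ _ _ (CER20_hi_mon _ _ _ _ _ ?_) (CER20_hi_mon _ _ _ _ _ ?_)) (CER20_hi_mon _ _ _ _ _ ?_)) (CER20_hi_mon _ _ _ _ _ ?_)) (CER20_hi_mon _ _ _ _ _ ?_)) (CER20_hi_mon _ _ _ _ _ ?_)) (CER20_hi_mon _ _ _ _ _ ?_)) (CER20_hi_mon _ _ _ _ _ ?_)) (CER20_hi_mon _ _ _ _ _ ?_)) (CER20_hi_mon _ _ _ _ _ ?_)) (CER20_hi_mon _ _ _ _ _ ?_)) (CER20_hi_mon _ _ _ _ _ ?_)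
  all_goals (rw [CER20_ex_lt]; norm_num)

theorem CER20_unit : IsUnit (CER20_f3 q20) := by
  have hr := CER20_hi_rest
  apply isUnit_top _ (ex 3 3 0)
  · rw [CER20_Qexp, HahnSeries.coeff_add, hr _ le_rfl, mon, HahnSeries.coeff_single_same, add_zero]
  · intro g hg
    rw [CER20_Qexp, HahnSeries.coeff_add, hr _ hg.le, mon, HahnSeries.coeff_single_of_ne (ne_of_lt hg), add_zero]

/-- the polynomial identity -/
theorem CER20_poly :
    (CER20_f3 CER20_l - CER20_f3 CER20_T)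
      * (CER20_f3 q20 * (DU (CER20_f3 n20_1) + DV (CER20_f3 n20_2) + DW (CER20_f3 n20_3)
          - (CER20_f3 n20_1 + CER20_f3 n20_2 + CER20_f3 n20_3))
        - (DU (CER20_f3 q20) * CER20_f3 n20_1 + DV (CER20_f3 q20) * CER20_f3 n20_2 + DW (CER20_f3 q20) * CER20_f3 n20_3))
      - CER20_f3 q20 * ((DU (CER20_f3 CER20_l) - CER20_f3 CER20_l) * CER20_f3 n20_1
          + (DV (CER20_f3 CER20_l) - CER20_f3 CER20_l) * CER20_f3 n20_2
          + (DW (CER20_f3 CER20_l) - CER20_f3 CER20_l) * CER20_f3 n20_3)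
    = CER20_f3 CER20_T * ((4 * (CER20_f3 CER20_l - CER20_f3 CER20_T) + 120 * CER20_f3 CER20_E)
        * (CER20_f3 q20 * CER20_f3 q20)) := by
  have h := CER20_f3_z _ CER20_check
  rw [CER20_f3_sub, sub_eq_zero] at h
  have h1 : CER20_f3 CER20_n = DU (CER20_f3 n20_1) + DV (CER20_f3 n20_2) + DW (CER20_f3 n20_3)
          - (CER20_f3 n20_1 + CER20_f3 n20_2 + CER20_f3 n20_3) := by
    rw [CER20_n, CER20_f3_sub, CER20_f3_add, CER20_f3_add, CER20_f3_add, CER20_f3_add, CER20_DU, CER20_DV, CER20_DW]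
    ring
  have h2 : CER20_f3 CER20_S = CER20_f3 q20 * CER20_f3 CER20_n
      - (DU (CER20_f3 q20) * CER20_f3 n20_1 + DV (CER20_f3 q20) * CER20_f3 n20_2 + DW (CER20_f3 q20) * CER20_f3 n20_3) := by
    rw [CER20_S, CER20_f3_sub, CER20_f3_add, CER20_f3_add, CER20_f3_mul, CER20_f3_mul, CER20_f3_mul, CER20_f3_mul,
      CER20_DU, CER20_DV, CER20_DW]
    ring
  have h3 : CER20_f3 CER20_R = (DU (CER20_f3 CER20_l) - CER20_f3 CER20_l) * CER20_f3 n20_1
          + (DV (CER20_f3 CER20_l) - CER20_f3 CER20_l) * CER20_f3 n20_2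
          + (DW (CER20_f3 CER20_l) - CER20_f3 CER20_l) * CER20_f3 n20_3 := by
    rw [CER20_R, CER20_f3_add, CER20_f3_add, CER20_f3_mul, CER20_f3_mul, CER20_f3_mul, CER20_f3_sub, CER20_f3_sub,
      CER20_f3_sub, CER20_DU, CER20_DV, CER20_DW]
    ring
  have h4 : CER20_f3 CER20_lhs = (CER20_f3 CER20_l - CER20_f3 CER20_T) * CER20_f3 CER20_S
      - CER20_f3 q20 * CER20_f3 CER20_R := by
    rw [CER20_lhs, CER20_f3_sub, CER20_f3_mul, CER20_f3_mul, CER20_f3_sub]
  have h5 : CER20_f3 CER20_rhs = CER20_f3 CER20_T * ((4 * (CER20_f3 CER20_l - CER20_f3 CER20_T)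
      + 120 * CER20_f3 CER20_E) * (CER20_f3 q20 * CER20_f3 q20)) := by
    rw [CER20_rhs, CER20_f3_mul, CER20_f3_mul, CER20_f3_mul, CER20_rr, CER20_f3_add, CER20_f3_smul, CER20_f3_smul,
      CER20_f3_sub]
    push_cast
    ring
  rw [← h1, ← h2, ← h3, ← h4, ← h5]
  exact h

/-- inverse of a unit under a derivation -/
theorem CER20_dinv (l : Gam →+ ℤ) (q r : HS GaussianInt) (h : q * r = 1) : dl l r = -(r * r * dl l q) := by
  have h1 := dl_one (R := GaussianInt) l
  rw [← h, dl_mul] at h1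
  linear_combination r * h1 - dl l r * h

theorem CER20 : ∃ P1 P2 P3 : HS GaussianInt,
    (Lam (-20 : GaussianInt) - 1) * (DU P1 + DV P2 + DW P3)
      - (P1 * DU (Lam (-20)) + P2 * DV (Lam (-20)) + P3 * DW (Lam (-20)))
      = HahnSeries.C 4 * (Lam (-20 : GaussianInt) - 1) - HahnSeries.C 6 * thLam (-20 : GaussianInt) := by
  obtain ⟨r, hr⟩ := CER20_unit.exists_right_inv
  have hT : mon GaussianInt 1 1 1 * mon GaussianInt (-1) (-1) (-1) = 1 := by
    rw [mon_mul]
    exact mon_zero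
  have hpoly := CER20_poly
  rw [CER20_fT] at hpoly
  have hC : (HahnSeries.C (-20 : GaussianInt) : HS GaussianInt) = -20 := by
    rw [map_neg]
    congr 1
  have hC4 : (HahnSeries.C (4 : GaussianInt) : HS GaussianInt) = 4 := map_ofNat _ 4
  have hC6 : (HahnSeries.C (6 : GaussianInt) : HS GaussianInt) = 6 := map_ofNat _ 6
  have hL : Lam (-20 : GaussianInt) = CER20_f3 CER20_l * mon GaussianInt (-1) (-1) (-1) := by
    rw [Lam, CER20_fl, hC]
    linear_combination (-EE GaussianInt) * hT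
  have hth : thLam (-20 : GaussianInt) = -20 * (EE GaussianInt * mon GaussianInt (-1) (-1) (-1)) := by
    rw [thLam, hC]
    ring
  rw [CER20_fE] at hpoly
  have dmU : ∀ f : HS GaussianInt, DU (f * mon GaussianInt (-1) (-1) (-1))
      = (DU f - f) * mon GaussianInt (-1) (-1) (-1) := by
    intro f
    change dl lU (f * mon GaussianInt (-1) (-1) (-1)) = (dl lU f - f) * mon GaussianInt (-1) (-1) (-1)
    rw [dl_mul, dl_mon, lU_ex]
    simp only [Int.cast_neg, Int.cast_one, map_neg, map_one]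
    ring
  have dmV : ∀ f : HS GaussianInt, DV (f * mon GaussianInt (-1) (-1) (-1))
      = (DV f - f) * mon GaussianInt (-1) (-1) (-1) := by
    intro f
    change dl lV (f * mon GaussianInt (-1) (-1) (-1)) = (dl lV f - f) * mon GaussianInt (-1) (-1) (-1)
    rw [dl_mul, dl_mon, lV_ex]
    simp only [Int.cast_neg, Int.cast_one, map_neg, map_one]
    ring
  have dmW : ∀ f : HS GaussianInt, DW (f * mon GaussianInt (-1) (-1) (-1))
      = (DW f - f) * mon GaussianInt (-1) (-1) (-1) := by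
    intro f
    change dl lW (f * mon GaussianInt (-1) (-1) (-1)) = (dl lW f - f) * mon GaussianInt (-1) (-1) (-1)
    rw [dl_mul, dl_mon, lW_ex]
    simp only [Int.cast_neg, Int.cast_one, map_neg, map_one]
    ring
  have mU : ∀ f g : HS GaussianInt, DU (f * g) = DU f * g + f * DU g := fun f g => dl_mul _ f g
  have mV : ∀ f g : HS GaussianInt, DV (f * g) = DV f * g + f * DV g := fun f g => dl_mul _ f g
  have mW : ∀ f g : HS GaussianInt, DW (f * g) = DW f * g + f * DW g := fun f g => dl_mul _ f g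
  have rU : DU r = -(r * r * DU (CER20_f3 q20)) := CER20_dinv _ _ _ hr
  have rV : DV r = -(r * r * DV (CER20_f3 q20)) := CER20_dinv _ _ _ hr
  have rW : DW r = -(r * r * DW (CER20_f3 q20)) := CER20_dinv _ _ _ hr
  refine ⟨CER20_f3 n20_1 * r * mon GaussianInt (-1) (-1) (-1), CER20_f3 n20_2 * r * mon GaussianInt (-1) (-1) (-1),
    CER20_f3 n20_3 * r * mon GaussianInt (-1) (-1) (-1), ?_⟩
  rw [hL, hth, hC4, hC6, dmU, dmV, dmW, dmU, dmV, dmW, mU, mV, mW, rU, rV, rW]
  generalize CER20_f3 CER20_l = l at *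
  generalize DU l = lu at *
  generalize DV l = lv at *
  generalize DW l = lw at *
  generalize mon GaussianInt (-1) (-1) (-1) = t at *
  generalize mon GaussianInt 1 1 1 = T at *
  generalize CER20_f3 n20_1 = n1 at *
  generalize CER20_f3 n20_2 = n2 at *
  generalize CER20_f3 n20_3 = n3 at *
  generalize DU n1 = n1u at *
  generalize DV n2 = n2v at *
  generalize DW n3 = n3w at *
  generalize CER20_f3 q20 = q at *
  generalize DU q = qu at *
  generalize DV q = qv at *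
  generalize DW q = qw at *
  generalize EE GaussianInt = e at *
  linear_combination (t ^ 2 * r ^ 2) * hpoly
    + (-(l * t - 1) * t * r * (n1u + n2v + n3w - (n1 + n2 + n3))
        + r * t ^ 2 * ((lu - l) * n1 + (lv - l) * n2 + (lw - l) * n3)
        + t * (4 * (l - T) + 120 * e) * (q * r + 1)) * hr
    + (t * r ^ 2 * (q * (n1u + n2v + n3w - (n1 + n2 + n3)) - (qu * n1 + qv * n2 + qw * n3)) - 4
        + t * (4 * (l - T) + 120 * e) * (q * r) ^ 2) * hT

end Pool.Agent.Lib_helper91.TC
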