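import Pool.Agent.Lib_helper91.TC.Defs

/-! TC, block TWO: the 2-adic part for `4 ∣ x`. -/

namespace Pool.Agent.Lib_helper91.TC

open Finset

/-- integer combinations of the functions `C(k, i)`, `i ≤ m` -/
def two_B (m : ℕ) : Submodule ℤ (ℕ → ℤ) :=
  Submodule.span ℤ {g | ∃ i ≤ m, g = fun k : ℕ => ((k.choose i : ℕ) : ℤ)}

theorem two_gen {m i : ℕ} (h : i ≤ m) : (fun k : ℕ => ((k.choose i : ℕ) : ℤ)) ∈ two_B m :=
  Submodule.subset_span ⟨i, h, rfl⟩

theorem two_prod (k i j : ℕ) : k.choose i * k.choose j =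
    ∑ s ∈ range (j + 1), i.choose (j - s) * (i + s).choose i * k.choose (i + s) := by
  rcases le_or_gt i k with h | h
  · obtain ⟨d, rfl⟩ : ∃ d, k = i + d := ⟨k - i, by omega⟩
    have hv : (i + d).choose j = ∑ s ∈ range (j + 1), i.choose (j - s) * d.choose s := by
      rw [Nat.add_choose_eq, Finset.Nat.sum_antidiagonal_eq_sum_range_succ_mk,
        ← Finset.sum_range_reflect]
      apply Finset.sum_congr rfl
      intro s hs
      have hs' : s ≤ j := by simpa [Nat.lt_succ_iff] using hs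
      have e1 : j + 1 - 1 - s = j - s := by omega
      have e2 : j - (j - s) = s := by omega
      simp only [e1, e2]
    rw [hv, Finset.mul_sum]
    apply Finset.sum_congr rfl
    intro s hs
    have h1 : (i + d).choose (i + s) * (i + s).choose i = (i + d).choose i * d.choose s := by
      rcases le_or_gt s d with hsd | hsd
      · have := Nat.choose_mul (n := i + d) (k := i + s) (s := i) (by omega)
        rw [this]
        congr 2 <;> omega
      · rw [Nat.choose_eq_zero_of_lt (show i + d < i + s by omega),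
          Nat.choose_eq_zero_of_lt hsd]
        simp
    calc (i + d).choose i * (i.choose (j - s) * d.choose s)
        = i.choose (j - s) * ((i + d).choose i * d.choose s) := by ring
      _ = i.choose (j - s) * ((i + d).choose (i + s) * (i + s).choose i) := by rw [h1]
      _ = _ := by ring
  · rw [Nat.choose_eq_zero_of_lt h, zero_mul]
    symm
    apply Finset.sum_eq_zero
    intro s _
    rw [Nat.choose_eq_zero_of_lt (show k < i + s by omega), mul_zero]

theorem two_mul {m : ℕ} {g : ℕ → ℤ} (hg : g ∈ two_B m) (j : ℕ) :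
    (fun k : ℕ => g k * ((k.choose j : ℕ) : ℤ)) ∈ two_B (m + j) := by
  induction hg using Submodule.span_induction with
  | mem g hg =>
    obtain ⟨i, hi, rfl⟩ := hg
    have e : (fun k : ℕ => ((k.choose i : ℕ) : ℤ) * ((k.choose j : ℕ) : ℤ)) =
        ∑ s ∈ range (j + 1), (((i.choose (j - s) * (i + s).choose i : ℕ)) : ℤ) •
          (fun k : ℕ => ((k.choose (i + s) : ℕ) : ℤ)) := by
      funext k
      rw [Finset.sum_apply]
      simp only [Pi.smul_apply, smul_eq_mul]
      exact_mod_cast two_prod k i j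
    rw [e]
    apply Submodule.sum_mem
    intro s hs
    have hs' : s ≤ j := by simpa [Nat.lt_succ_iff] using hs
    exact Submodule.smul_mem _ _ (two_gen (by omega))
  | zero =>
    have : (fun k : ℕ => (0 : ℕ → ℤ) k * ((k.choose j : ℕ) : ℤ)) = 0 := by
      funext k; simp
    rw [this]
    exact Submodule.zero_mem _
  | add g₁ g₂ _ _ h1 h2 =>
    have : (fun k : ℕ => (g₁ + g₂) k * ((k.choose j : ℕ) : ℤ)) =
        (fun k : ℕ => g₁ k * ((k.choose j : ℕ) : ℤ)) + (fun k : ℕ => g₂ k * ((k.choose j : ℕ) : ℤ)) := by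
      funext k; simp [add_mul]
    rw [this]
    exact Submodule.add_mem _ h1 h2
  | smul c g _ h1 =>
    have : (fun k : ℕ => (c • g) k * ((k.choose j : ℕ) : ℤ)) =
        c • (fun k : ℕ => g k * ((k.choose j : ℕ) : ℤ)) := by
      funext k; simp [mul_assoc]
    rw [this]
    exact Submodule.smul_mem _ _ h1

theorem two_sum_choose (n i : ℕ) : ∑ k ∈ range n, k.choose i = n.choose (i + 1) := by
  induction n with
  | zero => simp
  | succ n ih =>
    rw [Finset.sum_range_succ, ih, Nat.choose_succ_succ, add_comm]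

theorem two_dvd_choose {a n i e : ℕ} (h : 2 ^ a ∣ n) (hi : i + 1 < 2 ^ (e + 1)) :
    2 ^ a ∣ 2 ^ e * n.choose (i + 1) := by
  obtain ⟨v, u, hu, hiu⟩ := Nat.exists_eq_two_pow_mul_odd (n := i + 1) (by omega)
  have hv : v ≤ e := by
    by_contra hcon
    have h1 : 2 ^ (e + 1) ≤ 2 ^ v := Nat.pow_le_pow_right (by norm_num) (by omega)
    have h2 : 1 ≤ u := hu.pos
    have h3 : 2 ^ v ≤ 2 ^ v * u := Nat.le_mul_of_pos_right _ h2
    omega
  have h1 : 2 ^ a ∣ (i + 1) * n.choose (i + 1) := by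
    rcases Nat.eq_zero_or_pos n with hn | hn
    · subst hn; simp
    · obtain ⟨m, rfl⟩ : ∃ m, n = m + 1 := ⟨n - 1, by omega⟩
      have := Nat.add_one_mul_choose_eq m i
      -- (m + 1) * m.choose i = (m + 1).choose (i + 1) * (i + 1)
      rw [mul_comm, ← this]
      exact Dvd.dvd.mul_right h _
  have h1' : 2 ^ a ∣ 2 ^ v * n.choose (i + 1) * u := by
    have e : (i + 1) * n.choose (i + 1) = 2 ^ v * n.choose (i + 1) * u := by
      calc (i + 1) * n.choose (i + 1) = (2 ^ v * u) * n.choose (i + 1) := by rw [← hiu]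
        _ = _ := by ring
    rw [← e]; exact h1
  have hc : Nat.Coprime (2 ^ a) u := Nat.Coprime.pow_left a (Nat.coprime_two_left.mpr hu)
  have h2 : 2 ^ a ∣ 2 ^ v * n.choose (i + 1) := hc.dvd_of_dvd_mul_right h1'
  exact h2.trans (Nat.mul_dvd_mul_right (pow_dvd_pow 2 hv) _)

theorem two_span {m e : ℕ} (he : m + 1 < 2 ^ (e + 1)) {g : ℕ → ℤ} (hg : g ∈ two_B m) {a n : ℕ}
    (h : 2 ^ a ∣ n) : (2 : ℤ) ^ a ∣ 2 ^ e * ∑ k ∈ range n, g k := by
  induction hg using Submodule.span_induction with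
  | mem g hg =>
    obtain ⟨i, hi, rfl⟩ := hg
    have h1 := two_dvd_choose (i := i) (e := e) h (by omega)
    rw [← two_sum_choose] at h1
    show (2 : ℤ) ^ a ∣ 2 ^ e * ∑ k ∈ range n, ((k.choose i : ℕ) : ℤ)
    exact_mod_cast h1
  | zero => simp
  | add g₁ g₂ _ _ h1 h2 =>
    simp only [Pi.add_apply, Finset.sum_add_distrib, mul_add]
    exact dvd_add h1 h2
  | smul c g _ h1 =>
    simp only [Pi.smul_apply, smul_eq_mul, ← Finset.mul_sum]
    rw [mul_left_comm]
    exact Dvd.dvd.mul_left h1 _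

theorem two_four (j : ℕ) : (fun k : ℕ => ((k.choose j : ℕ) : ℤ) ^ 4) ∈ two_B (4 * j) := by
  have h := two_mul (two_mul (two_mul (two_gen (le_refl j)) j) j) j
  have e1 : j + j + j + j = 4 * j := by ring
  rw [e1] at h
  convert h using 2
  ring

theorem two_lt (j : ℕ) : 4 * j + 1 < 2 ^ (2 * j + 1) := by
  induction j with
  | zero => norm_num
  | succ j ih =>
    have : 2 ^ (2 * (j + 1) + 1) = 4 * 2 ^ (2 * j + 1) := by ring
    rw [this]
    omega

theorem TWO (x α β : ℤ) (hx : 4 ∣ x) (a n : ℕ) (h : 2 ^ a ∣ n) :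
    (2 : ℤ) ^ a ∣ ∑ k ∈ range n, ∑ j ∈ range (k + 1), (α * (j : ℤ) + β) * ((k.choose j : ℕ) : ℤ) ^ 4 * x ^ j := by
  have e1 : ∑ k ∈ range n, ∑ j ∈ range (k + 1),
      (α * (j : ℤ) + β) * ((k.choose j : ℕ) : ℤ) ^ 4 * x ^ j =
      ∑ j ∈ range n, (α * (j : ℤ) + β) * (x ^ j * ∑ k ∈ range n, ((k.choose j : ℕ) : ℤ) ^ 4) := by
    have e2 : ∀ k ∈ range n, ∑ j ∈ range (k + 1),
        (α * (j : ℤ) + β) * ((k.choose j : ℕ) : ℤ) ^ 4 * x ^ j =
        ∑ j ∈ range n, (α * (j : ℤ) + β) * ((k.choose j : ℕ) : ℤ) ^ 4 * x ^ j := by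
      intro k hk
      apply Finset.sum_subset
      · intro j hj
        simp only [Finset.mem_range] at hj hk ⊢
        omega
      · intro j _ hj
        simp only [Finset.mem_range, not_lt] at hj
        rw [Nat.choose_eq_zero_of_lt (by omega)]
        simp
    rw [Finset.sum_congr rfl e2, Finset.sum_comm]
    apply Finset.sum_congr rfl
    intro j _
    rw [Finset.mul_sum, Finset.mul_sum]
    apply Finset.sum_congr rfl
    intro k _
    ring
  rw [e1]
  apply Finset.dvd_sum
  intro j _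
  apply Dvd.dvd.mul_left
  obtain ⟨y, rfl⟩ := hx
  have h1 := two_span (e := 2 * j) (two_lt j) (two_four j) h
  have e3 : (4 * y) ^ j * ∑ k ∈ range n, ((k.choose j : ℕ) : ℤ) ^ 4 =
      y ^ j * (2 ^ (2 * j) * ∑ k ∈ range n, ((k.choose j : ℕ) : ℤ) ^ 4) := by
    rw [mul_pow, pow_mul]
    norm_num
    ring
  rw [e3]
  exact Dvd.dvd.mul_left h1 _

end Pool.Agent.Lib_helper91.TC
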