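import Pool.Agent.Lib_helper91.TC.Defs
import Pool.Agent.Lib_helper91.TC.CAB
import Pool.Agent.Lib_helper91.TC.CER12
import Pool.Agent.Lib_helper91.TC.CER20
import Pool.Agent.Lib_helper91.TC.AP4
import Pool.Agent.Lib_helper91.TC.TWO

/-! Block CF of part (c) of MP_f97b3c_nt : assembly. -/

namespace Pool.Agent.Lib_helper91.TC

open Finset

/-- the part with the factor `2 k + 1 - j` -/
theorem cf_ap (x : ℤ) (n : ℕ) :
    (n : ℤ) ∣ ∑ k ∈ range n, ∑ j ∈ range (k + 1),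
      (2 * (k : ℤ) + 1 - j) * ((k.choose j : ℕ) : ℤ) ^ 4 * x ^ j := by
  have h1 : ∑ k ∈ range n, ∑ j ∈ range (k + 1),
      (2 * (k : ℤ) + 1 - j) * ((k.choose j : ℕ) : ℤ) ^ 4 * x ^ j =
      ∑ k ∈ range n, ∑ j ∈ range n,
      (2 * (k : ℤ) + 1 - j) * ((k.choose j : ℕ) : ℤ) ^ 4 * x ^ j := by
    refine sum_congr rfl fun k hk => ?_
    rw [mem_range] at hk
    apply sum_subset
    · intro j hj
      rw [mem_range] at hj ⊢
      omega
    · intro j _ hj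
      rw [mem_range, not_lt] at hj
      rw [Nat.choose_eq_zero_of_lt (by omega)]
      simp
  rw [h1, sum_comm]
  refine dvd_sum fun j _ => ?_
  rw [← sum_mul]
  exact (AP4 j n).mul_right _

theorem cf_split (x q s : ℤ) (n : ℕ) :
    ∑ k ∈ range n, (2 * s * (k : ℤ) + (q + s)) *
        ∑ j ∈ range (k + 1), ((k.choose j : ℕ) : ℤ) ^ 4 * x ^ j =
      ∑ k ∈ range n, ∑ j ∈ range (k + 1), (s * (j : ℤ) + q) * ((k.choose j : ℕ) : ℤ) ^ 4 * x ^ j +
      s * ∑ k ∈ range n, ∑ j ∈ range (k + 1),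
        (2 * (k : ℤ) + 1 - j) * ((k.choose j : ℕ) : ℤ) ^ 4 * x ^ j := by
  rw [mul_sum, ← sum_add_distrib]
  refine sum_congr rfl fun k _ => ?_
  rw [mul_sum, mul_sum, ← sum_add_distrib]
  refine sum_congr rfl fun j _ => ?_
  ring

theorem CF12 (n : ℕ) :
    (n : ℤ) ∣ ∑ k ∈ range n, (4 * (k : ℤ) + 3) * ∑ j ∈ range (k + 1), ((k.choose j : ℕ) : ℤ) ^ 4 * 12 ^ j := by
  rcases Nat.eq_zero_or_pos n with rfl | hn
  · simp
  have h := cf_split 12 1 2 n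
  norm_num at h
  rw [h]
  apply dvd_add
  · obtain ⟨P1, P2, P3, hP⟩ := CER12
    have h2 := CAB (12 : ℤ) 2 1 P1 P2 P3 hP n hn
    have h3 : ∑ k ∈ range n, ∑ j ∈ range (k + 1),
        (2 * (j : ℤ) + 1) * ((k.choose j : ℕ) : ℤ) ^ 4 * 12 ^ j =
        (n : ℤ) * CT (Lam (12 : ℤ) ^ (n - 1) *
          (HahnSeries.C 1 - (DU P1 + DV P2 + DW P3))) := by
      rw [← h2]
    rw [h3]
    exact Dvd.intro _ rfl
  · exact (cf_ap 12 n).mul_left 2

/-- the divisibility by `n` of twice the sum for `x = -20` -/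
theorem cf_two (n : ℕ) (hn : 0 < n) :
    (n : ℤ) ∣ 2 * ∑ k ∈ range n, ∑ j ∈ range (k + 1),
      (3 * (j : ℤ) + 2) * ((k.choose j : ℕ) : ℤ) ^ 4 * (-20) ^ j := by
  obtain ⟨P1, P2, P3, hP⟩ := CER20
  have h2 := CAB (-20 : GaussianInt) 6 4 P1 P2 P3 hP n hn
  have h3 : (((n : ℤ)) : GaussianInt) ∣ ((2 * ∑ k ∈ range n, ∑ j ∈ range (k + 1),
      (3 * (j : ℤ) + 2) * ((k.choose j : ℕ) : ℤ) ^ 4 * (-20) ^ j : ℤ) : GaussianInt) := by
    refine ⟨CT (Lam (-20 : GaussianInt) ^ (n - 1) *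
          (HahnSeries.C 4 - (DU P1 + DV P2 + DW P3))), ?_⟩
    rw [Int.cast_natCast, ← h2]
    push_cast
    rw [mul_sum]
    refine sum_congr rfl fun k _ => ?_
    rw [mul_sum]
    refine sum_congr rfl fun j _ => ?_
    ring
  exact (Zsqrtd.intCast_dvd_intCast _ _).1 h3

theorem CF20 (n : ℕ) :
    (n : ℤ) ∣ ∑ k ∈ range n, (6 * (k : ℤ) + 5) * ∑ j ∈ range (k + 1), ((k.choose j : ℕ) : ℤ) ^ 4 * (-20) ^ j := by
  rcases Nat.eq_zero_or_pos n with rfl | hn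
  · simp
  have h := cf_split (-20) 2 3 n
  norm_num at h
  rw [h]
  apply dvd_add
  · obtain ⟨a, m, hm, hnm⟩ := Nat.exists_eq_two_pow_mul_odd hn.ne'
    have h1 := cf_two n hn
    have h2 := TWO (-20) 3 2 (by norm_num) a n ⟨m, hnm⟩
    have hc : IsCoprime ((2 : ℤ) ^ a) (m : ℤ) := by
      apply IsCoprime.pow_left
      have : Nat.Coprime 2 m := (Nat.coprime_two_left).2 hm
      exact_mod_cast (Nat.isCoprime_iff_coprime.2 this)
    have h3 : (m : ℤ) ∣ ∑ k ∈ range n, ∑ j ∈ range (k + 1),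
        (3 * (j : ℤ) + 2) * ((k.choose j : ℕ) : ℤ) ^ 4 * (-20) ^ j := by
      have hc2 : IsCoprime (m : ℤ) (2 : ℤ) := by
        have : Nat.Coprime m 2 := (Nat.coprime_two_right).2 hm
        exact_mod_cast (Nat.isCoprime_iff_coprime.2 this)
      apply hc2.dvd_of_dvd_mul_left
      refine dvd_trans ?_ h1
      exact_mod_cast (⟨2 ^ a, by rw [hnm]; ring⟩ : m ∣ n)
    have h4 := hc.mul_dvd h2 h3
    have h5 : ((n : ℕ) : ℤ) = (2 : ℤ) ^ a * (m : ℤ) := by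
      rw [hnm]; push_cast; ring
    rw [h5]
    exact h4
  · exact (cf_ap (-20) n).mul_left 3

end Pool.Agent.Lib_helper91.TC
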