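import Mathlib

/-!
Definitions for part (c) of MP_f97b3c_nt.

`S_k(x) = CT Λ^k` with `Λ = (1+U)(1+V)(1+W)(1+x/(UVW))`.  On the K3 surface `Λ = 1` (with `x = 12`, `x = -20`) there is an extra rational
curve, contained in `Q = 0`, and rational functions `P₁, P₂, P₃` with denominator `Q` such that
  `(Λ-1)(D_U P₁ + D_V P₂ + D_W P₃) - (P₁ D_U Λ + P₂ D_V Λ + P₃ D_W Λ) = β(Λ-1) - α θ_x Λ`,
so `∑_{k<n} (β + α θ_x) Λ^k = ∑ D_i(P_i G_n) + n Λ^{n-1}(β - div P)`, `G_n = ∑_{k<n} Λ^k`.  Take constant terms in a ring of formal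
Laurent series in `1/U, 1/V, W` in which `Q` is a unit.
-/

namespace Pool.Agent.Lib_helper91.TC

open Finset

/-- exponents: `(-u, -v, w)`, lexicographic order -/
abbrev Gam : Type := ℤ ×ₗ ℤ ×ₗ ℤ

/-- the ring of formal series -/
abbrev HS (R : Type) [CommRing R] : Type := HahnSeries Gam R

section

variable {R : Type} [CommRing R]

/-- the exponent of `U^u V^v W^w` -/
def ex (u v w : ℤ) : Gam := toLex (-u, toLex (-v, w))

/-- the monomial `U^u V^v W^w` -/
noncomputable def mon (R : Type) [CommRing R] (u v w : ℤ) : HS R := HahnSeries.single (ex u v w) 1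

/-- for an additive map `l : Gam → ℤ`, the derivation `U^u V^v W^w ↦ l(u,v,w) U^u V^v W^w` -/
noncomputable def dl (l : Gam →+ ℤ) (f : HS R) : HS R where
  coeff g := (l g : R) * f.coeff g
  isPWO_support' := f.isPWO_support.mono (fun n hn => by
    rw [Function.mem_support] at hn
    rw [HahnSeries.mem_support]
    intro h
    exact hn (by rw [h, mul_zero]))

/-- the exponent of `U` -/
def lU : Gam →+ ℤ where
  toFun g := -(ofLex g).1
  map_zero' := by simp
  map_add' a b := by simp; ring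
/-- the exponent of `V` -/
def lV : Gam →+ ℤ where
  toFun g := -(ofLex (ofLex g).2).1
  map_zero' := by simp
  map_add' a b := by simp; ring
/-- the exponent of `W` -/
def lW : Gam →+ ℤ where
  toFun g := (ofLex (ofLex g).2).2
  map_zero' := by simp
  map_add' a b := by simp

/-- `U ∂/∂U` -/
noncomputable def DU (f : HS R) : HS R := dl lU f
/-- `V ∂/∂V` -/
noncomputable def DV (f : HS R) : HS R := dl lV f
/-- `W ∂/∂W` -/
noncomputable def DW (f : HS R) : HS R := dl lW f

/-- the constant term -/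
noncomputable def CT (f : HS R) : R := f.coeff 0

/-- `(1+U)(1+V)(1+W)` -/
noncomputable def EE (R : Type) [CommRing R] : HS R := (1 + mon R 1 0 0) * (1 + mon R 0 1 0) * (1 + mon R 0 0 1)

/-- `Λ = (1+U)(1+V)(1+W)(1+x/(UVW))` -/
noncomputable def Lam (x : R) : HS R := EE R * (1 + HahnSeries.C x * mon R (-1) (-1) (-1))

/-- `θ_x Λ = (1+U)(1+V)(1+W) x/(UVW)` -/
noncomputable def thLam (x : R) : HS R := EE R * (HahnSeries.C x * mon R (-1) (-1) (-1))

end

/-! ### Polynomials in `U, V, W` as nested lists -/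

/-- Horner evaluation of a list of coefficients (constant term first) -/
def hor {S T : Type} [CommRing T] (f : S → T) (a : T) : List S → T
  | [] => 0
  | c :: l => f c + a * hor f a l

/-- the polynomial in `U,V,W` (outer list: powers of `U`, inner list: powers of `W`) with coefficients `c : S`, `f : S → HS R` -/
noncomputable def pev {S R : Type} [CommRing R] (f : S → HS R) (l : List (List (List S))) : HS R :=
  hor (hor (hor f (mon R 0 0 1)) (mon R 0 1 0)) (mon R 1 0 0) l

/-- coefficients in `ℤ` -/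
noncomputable def fZ (c : ℤ) : HS ℤ := HahnSeries.C c
/-- coefficients in `ℤ[i]` -/
noncomputable def fG (c : ℤ × ℤ) : HS GaussianInt := HahnSeries.C ⟨c.1, c.2⟩

/-- `Q` for `x = 12` : `UV + 3U + 3V + 6` -/
def q12 : List (List (List ℤ)) := [[[6], [3]], [[3], [1]]]
/-- `P1 = n12_1 / (U V W Q)` -/
def n12_1 : List (List (List ℤ)) :=
    [[[6, 12], [15, -6], [9, -21]], [[9, 18], [21, -12], [12, -29, -3], [0, 0, -3]], [[3, 6], [6, -5], [3, -9, -4], [0, 0, -4]], [[],
    [], [0, 0, -1], [0, 0, -1]]]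
/-- `P2 = n12_2 / (U V W Q)` -/
def n12_2 : List (List (List ℤ)) :=
    [[[-6, 6], [-9, 9], [-3, 3]], [[3, -3], [6, -12], [3, -10], [0, -1]], [[0, -3], [0, -10, -3], [0, -9, -5], [0, -2, -2]]]
/-- `P3 = n12_3 / (U V W Q)` -/
def n12_3 : List (List (List ℤ)) :=
    [[[6, 6], [-3, -3], [-6, -6]], [[-3, -3], [-6, -3, 2], [-3, -2, 3], [0, 1, 1]], [[9, 9], [-6, -3, 4], [-15, -5, 8], [0, 3, 3]],
    [[], [0, 1, 1], [], [0, -1, -1]]]
/-- `Q` for `x = -20` (coefficients `a + b i` as pairs) -/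
def q20 : List (List (List (ℤ × ℤ))) :=
    [[[(-24, -32)], [(-20, -40)]],
    [[(-52, -56)], [(-36, -72)], [(8, -4)]],
    [[(-32, -16)], [(-20, -20)], [(10, 0)], [(1, 0)]],
    [[(-4, 8)], [(-4, 12)], [(1, 4)], [(1, 0)]]]
/-- `P1 = n20_1 / (U V W Q)` -/
def n20_1 : List (List (List (ℤ × ℤ))) :=
    [[[(80, 440), (-368, -224)], [(-192, 244), (0, -40)], [(-240, -380), (400, 300)]], [[(320, 1260), (-1112, -576)], [(-608, 796),
    (8, -168), (-80, -40)], [(-692, -904), (1076, 844), (-148, -104)], [(116, 32), (-120, 110), (-80, -60)]], [[(480, 1140),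
    (-1128, -384)], [(-612, 844), (64, -240), (-240, -100)], [(-772, -554), (1036, 580), (-420, -272)], [(206, 147), (-276, 154),
    (-188, -176)], [(10, 19), (-42, -4), (24, -12)]], [[(320, 260), (-392, 64)], [(-168, 276), (108, -134), (-240, -60)],
    [(-418, 69), (474, -176), (-396, -180)], [(54, 189), (-156, -50), (-128, -126)], [(20, 38), (-87, -16), (59, -10)], [(0, 0),
    (-1, 0), (4, 1)]], [[(80, -60), (-8, 96)], [(28, -16), (56, -20), (-80, 20)], [(-98, 99), (130, -223), (-124, 40)], [(-36, 74),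
    (14, -114), (-16, 35)], [(10, 19), (-45, -19), (43, 16)], [(0, 0), (-2, 0), (8, 2)]], [[], [(0, 0), (4, 2), (0, 20)], [(0, 0),
    (16, -11), (0, 52)], [(0, 0), (13, -20), (4, 45)], [(0, 0), (0, -7), (8, 14)], [(0, 0), (-1, 0), (4, 1)]]]
/-- `P2 = n20_2 / (U V W Q)` -/
def n20_2 : List (List (List (ℤ × ℤ))) :=
    [[[(400, 200), (208, 344)], [(800, 500), (368, 764)], [(400, 300), (160, 420)]], [[(192, 356), (-296, 132)], [(232, 736),
    (-632, 296), (104, 72)], [(-60, 380), (-324, 244), (204, 172)], [(-100, 0), (16, 82), (100, 100)]], [[(-664, 288),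
    (-1376, -548)], [(-1412, 212), (-2640, -1340), (272, 176)], [(-784, -298), (-1184, -786), (496, 424)], [(-46, -237), (86, 31),
    (192, 264)], [(-10, -15), (6, 16), (-32, 16)]], [[(-304, 308), (-1032, -116)], [(-444, 368), (-2020, -362), (252, 116)],
    [(50, -145), (-916, -277), (440, 272)], [(190, -244), (112, -16), (134, 158)], [(0, -39), (42, 11), (-59, 1)], [(0, 0),
    (-1, 0), (-5, -1)]], [[(152, 176), (-160, 220)], [(400, 392), (-384, 518), (104, -8)], [(354, 232), (-238, 364), (192, -32)],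
    [(116, -8), (27, 66), (70, -50)], [(10, -24), (41, 0), (-26, -28)], [(0, 0), (0, 0), (-8, -2)]], [[], [(0, 0), (-4, 8),
    (20, -20)], [(0, 0), (-8, 20), (44, -52)], [(0, 0), (-3, 16), (25, -45)], [(0, 0), (2, 4), (-2, -14)], [(0, 0), (1, 0),
    (-3, -1)]]]
/-- `P3 = n20_3 / (U V W Q)` -/
def n20_3 : List (List (List (ℤ × ℤ))) :=
    [[[(20, 100), (20, 100)], [(-28, -124), (-28, -124)], [(0, 100), (0, 100)]], [[(-12, 124), (-12, 124)], [(16, -152), (32, -164),
    (-17, -43)], [(32, 204), (-73, 77), (-73, -98)], [(64, -52), (16, -133), (-48, -81)]], [[(-36, 32), (-36, 32)], [(24, -36),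
    (103, -51), (39, -60)], [(-4, 102), (-81, -37), (-40, -140)], [(50, 5), (31, -133), (-35, -136)], [(-40, 36), (-28, 29),
    (12, -7)]], [[(4, -8), (4, -8)], [(-48, -4), (92, 1), (115, -11)], [(-82, 1), (6, 13), (93, 4)], [(36, 20), (46, 26),
    (14, -3)], [(-20, 21), (-12, 32), (8, 8)], [(0, 0), (4, -2), (4, -2)]], [[(8, -16), (8, -16)], [(-28, 4), (35, -8), (47, -9)],
    [(-36, -11), (0, 3), (32, 18)], [(20, -46), (-5, -12), (-23, 39)], [(20, -15), (5, 0), (-16, 16)], [(0, 0), (2, -1), (2, -1)]],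
    [[], [(0, 0), (-12, -15), (-12, -15)], [(0, 0), (-28, -28), (-28, -28)], [(0, 0), (-21, -12), (-21, -12)], [(0, 0), (-7, 2),
    (-7, 2)], [(0, 0), (-2, 1), (-2, 1)]]]

end Pool.Agent.Lib_helper91.TC
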